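import Mathlib
import Pool.Agent.Run7.h918.SR.Ind
set_option autoImplicit false

/-!
# Stein's restriction conjecture for densities which are radial in several blocks of variables

Let `V_1, ..., V_b` be pairwise orthogonal subspaces of `ℝ^n` of dimension at least two. We consider
bounded measurable densities `F` on the unit sphere of `ℝ^n` which are invariant under the
orthogonal groups `O(V_1) × ... × O(V_b)`, that is `F(x) = F(y)` if `x - y ∈ V_i` for some `i`. They
are arbitrary bounded functions of the lengths `|P_{V_i} x|` and of the remaining coordinates; the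
number of free variables (including the radius) is `d = n - ∑ (dim V_i - 1)`. No smoothness is
assumed. More generally we treat superpositions `g(x) = ∑_j e^{i⟨η_j, x⟩} F_j(x)` of such
densities, where the subspaces and their number and dimensions may depend on `j`, with `d` fixed,
`|F_j| ≤ M_j` and `∑ M_j < ∞`.

* For every `d ≥ 2` the Fourier transform of `g dσ` is in `L^q(ℝ^n)` for `q > 2 + 4/(2n-d-1)`, with
  norm at most `C ∑ M_j`. (Stein-Tomas: `q ≥ 2 + 4/(n-1)`; conjecture: `q > 2 + 2/(n-1)`.) For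
  instance this applies to the densities on the unit sphere of `ℂ^m` invariant under the torus,
  with `n = 2m`, `d = m`, `q > 2 + 4/(3m-1)`.
* For `d = 2` this holds in the full range `q > 2n/(n-1)` of the conjecture.
* Every estimate `L^∞ → L^P` for the sphere of `ℝ^d` gives the estimate for these densities on the
  sphere of `ℝ^n` if `(q - 2)((n-d)/2 + 1/(P-2)) > 1`. In particular Stein's conjecture in `ℝ^d`
  implies it for these densities in `ℝ^n`, for every `n > d`, in the full range `q > 2n/(n-1)`.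
-/

namespace Pool.Agent.Results.MP_6cbfb8_an.BlockRadialDensities

open MeasureTheory Set Metric Complex
open Pool.Agent.TH335.RF (RT mink stein_tomas)
open Pool.Agent.Run7.h918.SR (Rad Blk Est est_blk rt_two exists_P)
open Pool.Agent.H438R2.PD (P2 P2_meas T_meas' T_comp)
open Pool.Agent.H789R2.FR (E sg T sg_finite)
open scoped ENNReal RealInnerProductSpace

/-- surface measure on the unit sphere -/
noncomputable def sigma (n : ℕ) : Measure (sphere (0 : E n) 1) := (volume : Measure (E n)).toSphere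

/-- the Fourier transform of the measure `g dσ` -/
noncomputable def ft {n : ℕ} (g : sphere (0 : E n) 1 → ℂ) (ξ : E n) : ℂ :=
  ∫ x, Complex.exp (-(2 * Real.pi * ⟪(x : E n), ξ⟫ : ℝ) * I) * g x ∂(sigma n)

/-- Stein's estimate for the unit sphere of `ℝ^n` and the exponent `p`: the Fourier transform maps
densities bounded by one to a bounded subset of `L^p`. -/
def Stein (n : ℕ) (p : ℝ) : Prop := ∃ C : ℝ, ∀ g : sphere (0 : E n) 1 → ℂ, Measurable g →
  (∀ x, ‖g x‖ ≤ 1) → eLpNorm (ft g) (ENNReal.ofReal p) ≤ ENNReal.ofReal C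

/-- The density `F` on the unit sphere of `ℝ^n` is invariant under the orthogonal groups of
pairwise orthogonal subspaces `W` (the members of the list `V`) of dimension at least two with
`n - ∑ (dim W - 1) = d`: one has `F x = F y` whenever `x - y ∈ W` for one of the subspaces. -/
def BlockRadial {n : ℕ} (d : ℕ) (F : sphere (0 : E n) 1 → ℂ) : Prop :=
  ∃ V : List (Submodule ℝ (E n)), V.Pairwise (fun A B => A ⟂ B) ∧
    (∀ W ∈ V, 2 ≤ Module.finrank ℝ W) ∧
    d + (V.map fun W : Submodule ℝ (E n) => Module.finrank ℝ W - 1).sum = n ∧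
    ∀ W ∈ V, ∀ x y : sphere (0 : E n) 1, (x : E n) - (y : E n) ∈ W → F x = F y

/-- The density `g` on the unit sphere of `ℝ^n` is a superposition `∑_j e^{i⟨η_j, x⟩} F_j(x)` of
modulated block radial densities with `d` free variables, where the functions `F_j` are measurable
and `|F_j| ≤ M_j`. The subspaces may depend on `j`. -/
def Blocks {n : ℕ} (d : ℕ) (M : ℕ → ℝ) (g : sphere (0 : E n) 1 → ℂ) : Prop :=
  ∃ (η : ℕ → E n) (F : ℕ → sphere (0 : E n) 1 → ℂ),
    (∀ j, BlockRadial d (F j)) ∧ (∀ j, Measurable (F j)) ∧ (∀ j x, ‖F j x‖ ≤ M j) ∧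
    ∀ᵐ x ∂(sigma n), g x = ∑' j, Complex.exp ((⟪η j, (x : E n)⟫ : ℝ) * I) * F j x

/-- The estimate with exponent `q` for all the densities of this form. -/
def Holds (n d : ℕ) (q : ℝ) : Prop := ∃ C : ℝ, 0 < C ∧ ∀ (M : ℕ → ℝ), Summable M →
  ∀ g : sphere (0 : E n) 1 → ℂ, Blocks d M g →
    MemLp (ft g) (ENNReal.ofReal q) ∧
    eLpNorm (ft g) (ENNReal.ofReal q) ≤ ENNReal.ofReal (C * ∑' j, M j)

/-! ### Proofs -/

theorem ft_eq {n : ℕ} (g : sphere (0 : E n) 1 → ℂ) (G : E n → ℂ) (hG : Measurable G)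
    (Λ : E n ≃ₗᵢ[ℝ] E n) (hg : ∀ᵐ x ∂(sigma n), g x = G (Λ x)) (ξ : E n) :
    ft g ξ = T G ((2 * Real.pi) • Λ ξ) := by
  rw [← map_smul, ← T_comp]
  unfold T ft
  have m1 : Measurable fun w : E n =>
      Complex.exp (-((⟪(2 * Real.pi) • ξ, w⟫ : ℝ) : ℂ) * I) * G (Λ w) := by
    have h2 : Measurable fun z : E n => (⟪(2 * Real.pi) • ξ, z⟫ : ℝ) :=
      (by fun_prop : Continuous _).measurable
    exact (Complex.measurable_exp.comp ((Complex.measurable_ofReal.comp h2).neg.mul_const I)).mul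
      (hG.comp Λ.continuous.measurable)
  simp only [sg]
  rw [integral_map measurable_subtype_coe.aemeasurable m1.aestronglyMeasurable]
  apply integral_congr_ae
  filter_upwards [hg] with x hx
  rw [hx, real_inner_smul_left, real_inner_comm]

theorem scale {n : ℕ} (f : E n → ℝ≥0∞) (hf : Measurable f) :
    ∫⁻ ξ : E n, f ((2 * Real.pi) • ξ) =
      ENNReal.ofReal ((2 * Real.pi) ^ n)⁻¹ * ∫⁻ z, f z := by
  have h2pi : (2 * Real.pi) ≠ 0 := by positivity
  have h3 := Measure.map_addHaar_smul (volume : Measure (E n)) h2pi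
  have h4 : ∫⁻ x : E n, f x ∂(Measure.map ((2 * Real.pi) • · : E n → E n) volume) =
      ∫⁻ ξ : E n, f ((2 * Real.pi) • ξ) := lintegral_map hf (measurable_const_smul _)
  rw [← h4, h3, lintegral_smul_measure, smul_eq_mul, finrank_euclideanSpace_fin,
    abs_of_nonneg (by positivity)]

theorem TG_meas {n : ℕ} (G : E n → ℂ) (hG : Measurable G) (Λ : E n ≃ₗᵢ[ℝ] E n) :
    Measurable fun ξ : E n => T G ((2 * Real.pi) • Λ ξ) := by
  have hTm : Measurable (T G) := T_meas' G hG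
  have hm1 : Measurable fun ξ : E n => T G ((2 * Real.pi) • ξ) := by
    have h1 : Measurable fun x : E n => (2 * Real.pi) • x := measurable_const_smul _
    have h2 := Measurable.comp hTm h1
    exact h2
  have h2 := Measurable.comp hm1 Λ.continuous.measurable
  exact h2

theorem ft_int_le {n : ℕ} (q : ℝ) (g : sphere (0 : E n) 1 → ℂ) (G : E n → ℂ)
    (hG : Measurable G) (Λ : E n ≃ₗᵢ[ℝ] E n) (hg : ∀ᵐ x ∂(sigma n), g x = G (Λ x)) :
    Measurable (ft g) ∧ ∫⁻ ξ, ‖ft g ξ‖ₑ ^ q ≤ ∫⁻ z, ‖T G z‖ₑ ^ q := by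
  have hfun : ft g = fun ξ => T G ((2 * Real.pi) • Λ ξ) := funext fun ξ => ft_eq g G hG Λ hg ξ
  have hTm : Measurable (T G) := T_meas' G hG
  have hmeas : Measurable fun z => ‖T G z‖ₑ ^ q := hTm.enorm.pow_const q
  have hm1 : Measurable fun ξ : E n => ‖T G ((2 * Real.pi) • ξ)‖ₑ ^ q := by
    have h1 : Measurable fun x : E n => (2 * Real.pi) • x := measurable_const_smul _
    exact hmeas.comp h1
  refine ⟨by rw [hfun]; exact TG_meas G hG Λ, ?_⟩
  rw [hfun]
  have h1 : ∫⁻ ξ, ‖T G ((2 * Real.pi) • Λ ξ)‖ₑ ^ q = ∫⁻ ξ, ‖T G ((2 * Real.pi) • ξ)‖ₑ ^ q :=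
    Λ.measurePreserving.lintegral_comp hm1
  rw [h1, scale (fun z => ‖T G z‖ₑ ^ q) hmeas]
  have h5 : ENNReal.ofReal ((2 * Real.pi) ^ n)⁻¹ ≤ 1 := by
    rw [ENNReal.ofReal_le_one]
    apply inv_le_one_of_one_le₀
    apply one_le_pow₀
    linarith [Real.pi_gt_three]
  calc _ ≤ 1 * ∫⁻ z, ‖T G z‖ₑ ^ q := by gcongr
    _ = _ := one_mul _

theorem ft_mod {n : ℕ} (g : sphere (0 : E n) 1 → ℂ) (η ξ : E n) :
    ft (fun x => Complex.exp ((⟪η, (x : E n)⟫ : ℝ) * I) * g x) ξ =
      ft g (ξ - (2 * Real.pi)⁻¹ • η) := by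
  unfold ft
  refine integral_congr_ae (Filter.Eventually.of_forall fun x => ?_)
  simp only
  rw [← mul_assoc, ← Complex.exp_add, inner_sub_right, real_inner_smul_right,
    real_inner_comm (x : E n) η]
  have hpi := Real.pi_ne_zero
  congr 2
  push_cast
  field_simp
  ring

theorem rt_of_stein (n : ℕ) (P : ℝ) (hP : 0 < P) (h : Stein n P) : RT n P := by
  obtain ⟨C, hC⟩ := h
  set C' : ℝ := |C| + 1 with hC'
  have hC'0 : 0 < C' := by positivity
  have h2pi : 0 < (2 * Real.pi) ^ n := by positivity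
  refine ⟨(2 * Real.pi) ^ n * C' ^ P, by positivity, fun G hG hb => ?_⟩
  set g : sphere (0 : E n) 1 → ℂ := fun x => G x with hg
  have hgm : Measurable g := hG.comp measurable_subtype_coe
  have h1 := hC g hgm (fun x => hb _)
  have hfun : ft g = fun ξ => T G ((2 * Real.pi) • ξ) := by
    funext ξ
    have h2 := ft_eq g G hG (LinearIsometryEquiv.refl ℝ (E n)) (Filter.Eventually.of_forall
      fun x => rfl) ξ
    exact h2
  rw [eLpNorm_eq_lintegral_rpow_enorm_toReal (by simpa using hP) ENNReal.ofReal_ne_top,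
    ENNReal.toReal_ofReal hP.le, hfun] at h1
  have hmeas : Measurable fun z => ‖T G z‖ₑ ^ P := (T_meas' G hG).enorm.pow_const P
  rw [scale (fun z => ‖T G z‖ₑ ^ P) hmeas] at h1
  have h2 : ENNReal.ofReal ((2 * Real.pi) ^ n)⁻¹ * ∫⁻ z, ‖T G z‖ₑ ^ P ≤
      ENNReal.ofReal (C' ^ P) := by
    have h3 := ENNReal.rpow_le_rpow h1 hP.le
    rw [← ENNReal.rpow_mul, one_div_mul_cancel hP.ne', ENNReal.rpow_one] at h3
    refine h3.trans ?_
    rw [← ENNReal.ofReal_rpow_of_nonneg hC'0.le hP.le]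
    apply ENNReal.rpow_le_rpow _ hP.le
    apply ENNReal.ofReal_le_ofReal
    rw [hC']
    linarith [le_abs_self C]
  calc ∫⁻ z, ‖T G z‖ₑ ^ P = ENNReal.ofReal ((2 * Real.pi) ^ n) *
        (ENNReal.ofReal ((2 * Real.pi) ^ n)⁻¹ * ∫⁻ z, ‖T G z‖ₑ ^ P) := by
        rw [← mul_assoc, ← ENNReal.ofReal_mul h2pi.le, mul_inv_cancel₀ h2pi.ne',
          ENNReal.ofReal_one, one_mul]
    _ ≤ ENNReal.ofReal ((2 * Real.pi) ^ n) * ENNReal.ofReal (C' ^ P) := by gcongr
    _ = _ := by rw [← ENNReal.ofReal_mul h2pi.le]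


/-- one term of the superposition -/
theorem one_term (n d : ℕ) (hn : 1 ≤ n) (q : ℝ) (hq : 0 < q) (C : ℝ) (hC : 0 < C)
    (h : ∀ g : E n → ℂ, Measurable g → (∀ x, ‖g x‖ ≤ 1) → Blk n d g →
      ∫⁻ z, ‖T g z‖ₑ ^ q ≤ ENNReal.ofReal C)
    (η : E n) (F : sphere (0 : E n) 1 → ℂ) (hFB : BlockRadial d F) (hFm : Measurable F) (M : ℝ)
    (hM0 : 0 ≤ M) (hF : ∀ x, ‖F x‖ ≤ M) :
    Measurable (ft fun x : sphere (0 : E n) 1 => Complex.exp ((⟪η, (x : E n)⟫ : ℝ) * I) * F x) ∧
    (∫⁻ ξ, ‖ft (fun x : sphere (0 : E n) 1 =>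
      Complex.exp ((⟪η, (x : E n)⟫ : ℝ) * I) * F x) ξ‖ₑ ^ q) ^ (1 / q) ≤
      ENNReal.ofReal (C ^ (1 / q) * M) := by
  -- normalised function
  set F' : sphere (0 : E n) 1 → ℂ := fun y => ((M⁻¹ : ℝ) : ℂ) * F y with hF'
  have hF'm : Measurable F' := hFm.const_mul _
  have hF'1 : ∀ y, ‖F' y‖ ≤ 1 := by
    intro y
    rw [hF']
    simp only [norm_mul, Complex.norm_real, Real.norm_of_nonneg (inv_nonneg.2 hM0)]
    rcases hM0.eq_or_lt with h0 | h0
    · rw [← h0]; simp
    · rw [inv_mul_le_iff₀ h0, mul_one]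
      exact hF _
  have hFF' : ∀ y, F y = (M : ℂ) * F' y := by
    intro y
    rw [hF']
    rcases hM0.eq_or_lt with h0 | h0
    · have h1 := hF y
      rw [← h0] at h1
      have h2 : F y = 0 := norm_le_zero_iff.1 h1
      simp [h2]
    · simp only
      rw [← mul_assoc, ← Complex.ofReal_mul, mul_inv_cancel₀ h0.ne', Complex.ofReal_one, one_mul]
  -- the extension
  set G : E n → ℂ := Function.extend Subtype.val F' 0 with hG
  have hinj : Function.Injective (Subtype.val : sphere (0 : E n) 1 → E n) :=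
    Subtype.val_injective
  have hGx : ∀ x : sphere (0 : E n) 1, G x = F' x := fun x => hinj.extend_apply F' 0 x
  have hGm : Measurable G := by
    have hemb : MeasurableEmbedding (Subtype.val : sphere (0 : E n) 1 → E n) :=
      MeasurableEmbedding.subtype_coe isClosed_sphere.measurableSet
    exact hemb.measurable_extend hF'm measurable_const
  have hG1 : ∀ z, ‖G z‖ ≤ 1 := by
    intro z
    by_cases hz : ∃ x : sphere (0 : E n) 1, (x : E n) = z
    · obtain ⟨x, rfl⟩ := hz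
      rw [hGx]
      exact hF'1 x
    · rw [hG, Function.extend_apply' _ _ _ hz]
      simp
  have hblk : Blk n d G := by
    obtain ⟨V, hVp, hV2, hVs, hR⟩ := hFB
    refine ⟨V, hVp, hV2, hVs, fun W hW x y hx hy hxy => ?_⟩
    have hx' : x ∈ sphere (0 : E n) 1 := by simpa using hx
    have hy' : y ∈ sphere (0 : E n) 1 := by simpa using hy
    have h1 := hGx ⟨x, hx'⟩
    have h2 := hGx ⟨y, hy'⟩
    have h3 := hR W hW ⟨x, hx'⟩ ⟨y, hy'⟩ hxy
    simp only at h1 h2
    rw [h1, h2, hF']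
    simp only
    rw [h3]
  have hGae : ∀ᵐ x ∂(sigma n), F' x = G ((LinearIsometryEquiv.refl ℝ (E n)) (x : E n)) :=
    Filter.Eventually.of_forall fun x => (hGx x).symm
  obtain ⟨hm1, hint⟩ := ft_int_le q F' G hGm (LinearIsometryEquiv.refl ℝ (E n)) hGae
  have hfun : ft (fun x : sphere (0 : E n) 1 =>
      Complex.exp ((⟪η, (x : E n)⟫ : ℝ) * I) * F x) =
      fun ξ => (M : ℂ) * ft F' (ξ - (2 * Real.pi)⁻¹ • η) := by
    funext ξ
    rw [← ft_mod]
    unfold ft
    rw [← integral_const_mul]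
    refine integral_congr_ae (Filter.Eventually.of_forall fun x => ?_)
    simp only
    rw [hFF' x]
    ring
  have hsub : Measurable fun ξ : E n => ξ - (2 * Real.pi)⁻¹ • η :=
    measurable_id.sub_const _
  rw [hfun]
  refine ⟨(hm1.comp hsub).const_mul _, ?_⟩
  have h1 : ∫⁻ ξ, ‖(M : ℂ) * ft F' (ξ - (2 * Real.pi)⁻¹ • η)‖ₑ ^ q ≤
      ENNReal.ofReal (M ^ q * C) := by
    calc ∫⁻ ξ, ‖(M : ℂ) * ft F' (ξ - (2 * Real.pi)⁻¹ • η)‖ₑ ^ q
        = ∫⁻ ξ, ENNReal.ofReal (M ^ q) * ‖ft F' (ξ - (2 * Real.pi)⁻¹ • η)‖ₑ ^ q := by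
          refine lintegral_congr fun ξ => ?_
          rw [enorm_mul, ENNReal.mul_rpow_of_nonneg _ _ hq.le, ← ofReal_norm (M : ℂ),
            Complex.norm_real, Real.norm_of_nonneg hM0, ENNReal.ofReal_rpow_of_nonneg hM0 hq.le]
      _ = ENNReal.ofReal (M ^ q) * ∫⁻ ξ, ‖ft F' ξ‖ₑ ^ q := by
          rw [lintegral_const_mul' _ _ ENNReal.ofReal_ne_top]
          congr 1
          exact lintegral_sub_right_eq_self (fun ξ => ‖ft F' ξ‖ₑ ^ q) ((2 * Real.pi)⁻¹ • η)
      _ ≤ ENNReal.ofReal (M ^ q) * ENNReal.ofReal C := by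
          gcongr
          exact hint.trans (h G hGm hG1 hblk)
      _ = _ := by rw [← ENNReal.ofReal_mul (by positivity)]
  refine (ENNReal.rpow_le_rpow h1 (by positivity)).trans (le_of_eq ?_)
  rw [ENNReal.ofReal_rpow_of_nonneg (by positivity) (by positivity),
    Real.mul_rpow (by positivity) hC.le, ← Real.rpow_mul hM0, mul_one_div_cancel hq.ne',
    Real.rpow_one, mul_comm]

/-- the superposition -/
theorem holds_of (n d : ℕ) (hn : 1 ≤ n) (q : ℝ) (hq : 1 ≤ q) (h : Est n q (Blk n d)) :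
    Holds n d q := by
  obtain ⟨C, hC, h⟩ := h
  have hq0 : 0 < q := by linarith
  refine ⟨C ^ (1 / q), by positivity, ?_⟩
  rintro M hM g ⟨η, F, hV, hFm, hF, hg⟩
  have hM0 : ∀ j, 0 ≤ M j := by
    intro j
    have h1 : EuclideanSpace.single (⟨0, hn⟩ : Fin n) (1 : ℝ) ∈ sphere (0 : E n) 1 := by simp
    exact (norm_nonneg _).trans (hF j ⟨_, h1⟩)
  set gj : ℕ → sphere (0 : E n) 1 → ℂ := fun j x =>
    Complex.exp ((⟪η j, (x : E n)⟫ : ℝ) * I) * F j x with hgj
  have hone := fun j => one_term n d hn q hq0 C hC h (η j) (F j) (hV j) (hFm j) (M j) (hM0 j) (hF j)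
  have hfin : IsFiniteMeasure (sigma n) := by unfold sigma; infer_instance
  have hgjm : ∀ j, Measurable (gj j) := by
    intro j
    refine Measurable.mul ?_ (hFm j)
    have h2 : Measurable fun x : E n => (⟪η j, x⟫ : ℝ) := by fun_prop
    have h3 : Measurable fun x : E n => Complex.exp ((⟪η j, x⟫ : ℝ) * I) :=
      Complex.measurable_exp.comp ((Complex.measurable_ofReal.comp h2).mul_const I)
    exact h3.comp measurable_subtype_coe
  have hgjb : ∀ j x, ‖gj j x‖ ≤ M j := by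
    intro j x
    rw [hgj]
    simp only [norm_mul, Complex.norm_exp_ofReal_mul_I, one_mul]
    exact hF j _
  have hsum : ∀ ξ, ft g ξ = ∑' j, ft (gj j) ξ := by
    intro ξ
    unfold ft
    have hen : ∀ (j : ℕ) (x : sphere (0 : E n) 1),
        ‖Complex.exp (-(2 * Real.pi * ⟪(x : E n), ξ⟫ : ℝ) * I) * gj j x‖ₑ ≤
          ENNReal.ofReal (M j) := by
      intro j x
      rw [← ofReal_norm]
      apply ENNReal.ofReal_le_ofReal
      have h3 : -(((2 * Real.pi * ⟪(x : E n), ξ⟫ : ℝ)) : ℂ) * I =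
          ((-(2 * Real.pi * ⟪(x : E n), ξ⟫) : ℝ) : ℂ) * I := by push_cast; ring
      rw [norm_mul, h3, Complex.norm_exp_ofReal_mul_I, one_mul]
      exact hgjb j x
    have hexm : Measurable fun x : sphere (0 : E n) 1 =>
        Complex.exp (-(2 * Real.pi * ⟪(x : E n), ξ⟫ : ℝ) * I) := by
      have h4 : Continuous fun x : sphere (0 : E n) 1 =>
        Complex.exp (-(2 * Real.pi * ⟪(x : E n), ξ⟫ : ℝ) * I) := by fun_prop
      exact h4.measurable
    rw [← integral_tsum]
    · refine integral_congr_ae ?_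
      filter_upwards [hg] with x hx
      rw [hx, ← tsum_mul_left]
    · exact fun j => (hexm.mul (hgjm j)).aestronglyMeasurable
    · have h5 : ∑' j, ∫⁻ x, ‖Complex.exp (-(2 * Real.pi * ⟪(x : E n), ξ⟫ : ℝ) * I) *
          gj j x‖ₑ ∂(sigma n) ≤ ∑' j, ENNReal.ofReal (M j) * sigma n univ := by
        apply ENNReal.tsum_le_tsum
        intro j
        calc _ ≤ ∫⁻ _x, ENNReal.ofReal (M j) ∂(sigma n) := lintegral_mono (hen j)
          _ = _ := by rw [lintegral_const]
      refine (h5.trans_lt ?_).ne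
      rw [ENNReal.tsum_mul_right, ← ENNReal.ofReal_tsum_of_nonneg hM0 hM]
      exact ENNReal.mul_lt_top ENNReal.ofReal_lt_top (measure_lt_top _ _)
  have hfun : ft g = fun ξ => ∑' j, ft (gj j) ξ := funext hsum
  have hmeas : Measurable (ft g) := by
    rw [hfun]
    exact Measurable.tsum fun j => (hone j).1
  have hle : ∫⁻ ξ, ‖ft g ξ‖ₑ ^ q ≤ (ENNReal.ofReal (C ^ (1 / q) * ∑' j, M j)) ^ q := by
    calc ∫⁻ ξ, ‖ft g ξ‖ₑ ^ q ≤ ∫⁻ ξ, (∑' j, ‖ft (gj j) ξ‖ₑ) ^ q := by
          apply lintegral_mono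
          intro ξ
          simp only
          rw [hsum]
          exact ENNReal.rpow_le_rpow enorm_tsum_le_tsum_enorm hq0.le
      _ ≤ (∑' j, (∫⁻ ξ, ‖ft (gj j) ξ‖ₑ ^ q) ^ (1 / q)) ^ q :=
          mink volume q hq (fun j ξ => ‖ft (gj j) ξ‖ₑ) fun j => (hone j).1.enorm
      _ ≤ (∑' j, ENNReal.ofReal (C ^ (1 / q) * M j)) ^ q :=
          ENNReal.rpow_le_rpow (ENNReal.tsum_le_tsum fun j => (hone j).2) hq0.le
      _ = _ := by
          rw [← ENNReal.ofReal_tsum_of_nonneg (fun j => mul_nonneg (by positivity) (hM0 j))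
            (hM.mul_left _), tsum_mul_left]
  have hnorm : eLpNorm (ft g) (ENNReal.ofReal q) ≤
      ENNReal.ofReal (C ^ (1 / q) * ∑' j, M j) := by
    rw [eLpNorm_eq_lintegral_rpow_enorm_toReal (by simpa using hq0) ENNReal.ofReal_ne_top,
      ENNReal.toReal_ofReal hq0.le]
    refine (ENNReal.rpow_le_rpow hle (by positivity)).trans (le_of_eq ?_)
    rw [← ENNReal.rpow_mul, mul_one_div_cancel hq0.ne', ENNReal.rpow_one]
  exact ⟨⟨hmeas.aestronglyMeasurable, hnorm.trans_lt ENNReal.ofReal_lt_top⟩, hnorm⟩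

theorem holds_rt (n d : ℕ) (hd : 2 ≤ d) (hdn : d < n) (P q : ℝ) (hP : 2 < P) (hRT : RT d P)
    (h : 1 < (q - 2) * (((n : ℝ) - d) / 2 + 1 / (P - 2))) : Holds n d q := by
  have hdn' : (d : ℝ) ≤ n := by exact_mod_cast hdn.le
  have hD : 0 < ((n : ℝ) - d) / 2 + 1 / (P - 2) := by
    have h1 : 0 < 1 / (P - 2) := one_div_pos.2 (by linarith)
    linarith
  have hq : 0 < q - 2 := by
    by_contra hc
    have : (q - 2) * (((n : ℝ) - d) / 2 + 1 / (P - 2)) ≤ 0 :=
      mul_nonpos_of_nonpos_of_nonneg (not_lt.1 hc) hD.le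
    linarith
  exact holds_of n d (by omega) q (by linarith) (est_blk n d hd hdn.le P hP hRT q h)

/-- choice of the exponent in dimension `d` -/
theorem pick (n d : ℕ) (hdn : d < n) (B q : ℝ) (hB : 0 < B)
    (h : 1 < (q - 2) * (((n : ℝ) - d) / 2 + B)) : ∃ P : ℝ, 2 < P ∧ 1 / (P - 2) < B ∧
    1 < (q - 2) * (((n : ℝ) - d) / 2 + 1 / (P - 2)) := by
  have h1 : ((n - d + 1 : ℕ) : ℝ) - 1 = (n : ℝ) - d := by
    push_cast [Nat.cast_sub hdn.le]
    ring
  have h2 := exists_P (n - d + 1) (by omega) B q hB (by rw [h1]; exact h)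
  rw [h1] at h2
  exact h2

/-- **Theorem.** Let `2 ≤ d < n`. The estimate with exponent `q` for the superpositions of modulated
block radial densities with `d` free variables holds in each of the following cases:
`q > 2 + 4/(2n-d-1)`; `d = 2` and `q` is in the full conjectured range `q > 2n/(n-1)`; Stein's
estimate is true for the sphere of `ℝ^d` and some `P > 2` with `(q - 2)((n-d)/2 + 1/(P-2)) > 1`;
Stein's conjecture is true in `ℝ^d` and `q > 2n/(n-1)`. -/
theorem result (n d : ℕ) (hd : 2 ≤ d) (hdn : d < n) (q : ℝ)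
    (h : 2 + 4 / (2 * (n : ℝ) - d - 1) < q ∨
      (d = 2 ∧ 2 * (n : ℝ) / (n - 1) < q) ∨
      (∃ P : ℝ, 2 < P ∧ Stein d P ∧ 1 < (q - 2) * (((n : ℝ) - d) / 2 + 1 / (P - 2))) ∨
      ((∀ P : ℝ, 2 * (d : ℝ) / (d - 1) < P → Stein d P) ∧ 2 * (n : ℝ) / (n - 1) < q)) :
    Holds n d q := by
  have hd' : (2 : ℝ) ≤ d := by exact_mod_cast hd
  have hdn' : (d : ℝ) < n := by exact_mod_cast hdn
  -- the conjectured range
  have hfull : 2 * (n : ℝ) / ((n : ℝ) - 1) < q →
      1 < (q - 2) * (((n : ℝ) - d) / 2 + ((d : ℝ) - 1) / 2) := by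
    intro hq
    rw [div_lt_iff₀ (by linarith)] at hq
    nlinarith
  rcases h with hq | ⟨h1, hq⟩ | ⟨P, hP, hS, h⟩ | ⟨hS, hq⟩
  · have h1 : 1 < (q - 2) * (((n : ℝ) - d) / 2 + ((d : ℝ) - 1) / 4) := by
      have h2 : 0 < 2 * (n : ℝ) - d - 1 := by linarith
      have h3 : 4 / (2 * (n : ℝ) - d - 1) < q - 2 := by linarith
      rw [div_lt_iff₀ h2] at h3
      nlinarith
    obtain ⟨P, hP, hPB, h2⟩ := pick n d hdn (((d : ℝ) - 1) / 4) q (by linarith) h1
    refine holds_rt n d hd hdn P q hP (stein_tomas d hd P ?_) h2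
    have hP2 : 0 < P - 2 := by linarith
    rw [div_lt_iff₀ hP2] at hPB
    rw [div_lt_iff₀ (by linarith)]
    nlinarith
  · subst h1
    have h1 := hfull hq
    push_cast at h1
    obtain ⟨P, hP, hPB, h2⟩ := pick n 2 hdn (1 / 2) q (by norm_num) (by
      push_cast
      norm_num at h1 ⊢
      exact h1)
    refine holds_rt n 2 hd hdn P q hP (rt_two P ?_) h2
    have hP2 : 0 < P - 2 := by linarith
    rw [div_lt_iff₀ hP2] at hPB
    linarith
  · exact holds_rt n d hd hdn P q hP (rt_of_stein d P (by linarith) hS) h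
  · obtain ⟨P, hP, hPB, h2⟩ := pick n d hdn (((d : ℝ) - 1) / 2) q (by linarith) (hfull hq)
    refine holds_rt n d hd hdn P q hP (rt_of_stein d P (by linarith) (hS P ?_)) h2
    have hP2 : 0 < P - 2 := by linarith
    rw [div_lt_iff₀ hP2] at hPB
    rw [div_lt_iff₀ (by linarith)]
    nlinarith

end Pool.Agent.Results.MP_6cbfb8_an.BlockRadialDensities
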