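import Mathlib
import Pool.Agent.Run7.h58.MV.Full3
set_option autoImplicit false

/-!
# Stein's restriction conjecture on `S²`: densities that are regular along meridians only

Consider densities on the unit sphere of `ℝ³` that are arbitrary measurable functions of the
longitude (with respect to some axis) and of bounded variation in the latitude, with no relation
at all between different meridians. If `V(u)` bounds the function and its total variation along the
meridian with longitude `u`, then the Fourier transform of `g dσ` is in `L^q(ℝ³)`, with norm at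
most `C ‖V‖_{L^p(S¹)}`, for all `q > 3` and `q > 2p'`: this is the full (open) range of exponents of
the restriction conjecture. The same is true for absolutely convergent superpositions of modulated
densities of this kind with respect to arbitrary axes. In particular `L^∞ → L^q` holds for
all `q > 3` for the indicator functions of measurable sets that meet every meridian in a
bounded number of arcs.
-/

namespace Pool.Agent.Results.MP_6cbfb8_an.MeridianRegularity

open MeasureTheory Set Metric Complex Filter Topology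
open Pool.Agent.Run7.h58.MV (Ps thmD jj jj_zero jj_two sphere_zu)
open Pool.Agent.TH335.RF (mink)
open Pool.Agent.H438R2.PD (T_meas' T_comp)
open Pool.Agent.H789R2.FR (E sg T sg_finite sg_ae)
open scoped ENNReal NNReal RealInnerProductSpace

/-- surface measure on the unit sphere -/
noncomputable def sigma (n : ℕ) : Measure (sphere (0 : E n) 1) := (volume : Measure (E n)).toSphere

/-- the Fourier transform of the measure `g dσ` -/
noncomputable def ft {n : ℕ} (g : sphere (0 : E n) 1 → ℂ) (ξ : E n) : ℂ :=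
  ∫ x, Complex.exp (-(2 * Real.pi * ⟪(x : E n), ξ⟫ : ℝ) * I) * g x ∂(sigma n)

/-- the point of the unit sphere of `ℝ³` with height `z` and longitude `u` (a unit vector of the
plane) -/
noncomputable def pt (z : ℝ) (u : E 2) : E 3 :=
  !₂[Real.sqrt (1 - z ^ 2) * u 0, Real.sqrt (1 - z ^ 2) * u 1, z]

/-- Along each meridian `{pt z u : -1 < z < 1}` the function `G` is at most `V u` and its total
variation is at most `V u`. -/
def Meridians (G : E 3 → ℂ) (V : E 2 → ℝ≥0∞) : Prop := ∀ u : E 2, ‖u‖ = 1 →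
  (∀ z ∈ Ioo (-1 : ℝ) 1, ‖G (pt z u)‖ₑ ≤ V u) ∧
    eVariationOn (fun z => G (pt z u)) (Ioo (-1 : ℝ) 1) ≤ V u

/-- The density `g` on the unit sphere of `ℝ³` is a superposition `∑_j e^{i⟨η_j, x⟩} G_j(Λ_j x)`:
the `Λ_j` are linear isometries, the frequencies `η_j` are arbitrary, the measurable function `G_j`
and its total variation along the meridian with longitude `u` are at most `V_j(u)`, and
`‖V_j‖_{L^p(S¹)} ≤ M_j`. -/
def Superposition (p : ℝ) (M : ℕ → ℝ) (g : sphere (0 : E 3) 1 → ℂ) : Prop :=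
  ∃ (Λ : ℕ → E 3 ≃ₗᵢ[ℝ] E 3) (η : ℕ → E 3) (G : ℕ → E 3 → ℂ) (V : ℕ → E 2 → ℝ≥0∞),
    (∀ j, Measurable (G j)) ∧ (∀ j, Measurable (V j)) ∧ (∀ j, Meridians (G j) (V j)) ∧
    (∀ j, ∫⁻ u : sphere (0 : E 2) 1, V j u ^ p ∂(sigma 2) ≤ ENNReal.ofReal (M j ^ p)) ∧
    ∀ᵐ x ∂(sigma 3), g x = ∑' j, Complex.exp ((⟪η j, (x : E 3)⟫ : ℝ) * I) * G j (Λ j (x : E 3))

/-- The estimate `L^p → L^q` for all densities of this form. -/
def Holds (p q : ℝ) : Prop := ∃ C : ℝ, 0 < C ∧ ∀ (M : ℕ → ℝ), (∀ j, 0 ≤ M j) → Summable M →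
  ∀ g : sphere (0 : E 3) 1 → ℂ, Superposition p M g →
    MemLp (ft g) (ENNReal.ofReal q) ∧
    eLpNorm (ft g) (ENNReal.ofReal q) ≤ ENNReal.ofReal (C * ∑' j, M j)

/-- The set `B` meets every meridian in at most `N` arcs. -/
def Arcs (B : Set (E 3)) (N : ℕ) : Prop := ∀ u : E 2, ‖u‖ = 1 → ∃ I : Fin N → Set ℝ,
  (∀ i, (I i).OrdConnected) ∧ {z : ℝ | z ∈ Ioo (-1 : ℝ) 1 ∧ pt z u ∈ B} = ⋃ i, I i

/-! ### Proofs -/

theorem Ps_eq (z : ℝ) (u : E 2) : Ps z u = pt z u := by
  ext i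
  fin_cases i
  · exact jj_zero _ _
  · change jj (Real.sqrt (1 - z ^ 2) • u) z 1 = _
    unfold jj Pool.Agent.H438R2.BR.J
    have h : (Fin.append (fun i => (Real.sqrt (1 - z ^ 2) • u) i)
      (fun i => (z • Pool.Agent.H438R2.BR.T10.e0) i) : Fin (2 + 1) → ℝ) (Fin.castAdd 1 1) =
      (Real.sqrt (1 - z ^ 2) • u) 1 := Fin.append_left _ _ _
    exact h
  · exact jj_two _ _

theorem ft_eq {n : ℕ} (g : sphere (0 : E n) 1 → ℂ) (G : E n → ℂ) (hG : Measurable G)
    (Λ : E n ≃ₗᵢ[ℝ] E n) (hg : ∀ᵐ x ∂(sigma n), g x = G (Λ x)) (ξ : E n) :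
    ft g ξ = T G ((2 * Real.pi) • Λ ξ) := by
  rw [← map_smul, ← T_comp]
  unfold T ft
  have m1 : Measurable fun w : E n =>
      Complex.exp (-((⟪(2 * Real.pi) • ξ, w⟫ : ℝ) : ℂ) * I) * G (Λ w) := by
    have h2 : Measurable fun z : E n => (⟪(2 * Real.pi) • ξ, z⟫ : ℝ) :=
      (by fun_prop : Continuous _).measurable
    exact (Complex.measurable_exp.comp ((Complex.measurable_ofReal.comp h2).neg.mul_const I)).mul
      (hG.comp Λ.continuous.measurable)
  simp only [sg]
  rw [integral_map measurable_subtype_coe.aemeasurable m1.aestronglyMeasurable]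
  apply integral_congr_ae
  filter_upwards [hg] with x hx
  rw [hx, real_inner_smul_left, real_inner_comm]

theorem scale {n : ℕ} (f : E n → ℝ≥0∞) (hf : Measurable f) :
    ∫⁻ ξ : E n, f ((2 * Real.pi) • ξ) =
      ENNReal.ofReal ((2 * Real.pi) ^ n)⁻¹ * ∫⁻ z, f z := by
  have h2pi : (2 * Real.pi) ≠ 0 := by positivity
  have h3 := Measure.map_addHaar_smul (volume : Measure (E n)) h2pi
  have h4 : ∫⁻ x : E n, f x ∂(Measure.map ((2 * Real.pi) • · : E n → E n) volume) =
      ∫⁻ ξ : E n, f ((2 * Real.pi) • ξ) := lintegral_map hf (measurable_const_smul _)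
  rw [← h4, h3, lintegral_smul_measure, smul_eq_mul, finrank_euclideanSpace_fin,
    abs_of_nonneg (by positivity)]

theorem TG_meas {n : ℕ} (G : E n → ℂ) (hG : Measurable G) (Λ : E n ≃ₗᵢ[ℝ] E n) :
    Measurable fun ξ : E n => T G ((2 * Real.pi) • Λ ξ) := by
  have hTm : Measurable (T G) := T_meas' G hG
  have hm1 : Measurable fun ξ : E n => T G ((2 * Real.pi) • ξ) := by
    have h1 : Measurable fun x : E n => (2 * Real.pi) • x := measurable_const_smul _
    have h2 := Measurable.comp hTm h1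
    exact h2
  have h2 := Measurable.comp hm1 Λ.continuous.measurable
  exact h2

theorem ft_int_le {n : ℕ} (q : ℝ) (g : sphere (0 : E n) 1 → ℂ) (G : E n → ℂ)
    (hG : Measurable G) (Λ : E n ≃ₗᵢ[ℝ] E n) (hg : ∀ᵐ x ∂(sigma n), g x = G (Λ x)) :
    Measurable (ft g) ∧ ∫⁻ ξ, ‖ft g ξ‖ₑ ^ q ≤ ∫⁻ z, ‖T G z‖ₑ ^ q := by
  have hfun : ft g = fun ξ => T G ((2 * Real.pi) • Λ ξ) := funext fun ξ => ft_eq g G hG Λ hg ξ
  have hTm : Measurable (T G) := T_meas' G hG
  have hmeas : Measurable fun z => ‖T G z‖ₑ ^ q := hTm.enorm.pow_const q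
  have hm1 : Measurable fun ξ : E n => ‖T G ((2 * Real.pi) • ξ)‖ₑ ^ q := by
    have h1 : Measurable fun x : E n => (2 * Real.pi) • x := measurable_const_smul _
    exact hmeas.comp h1
  refine ⟨by rw [hfun]; exact TG_meas G hG Λ, ?_⟩
  rw [hfun]
  have h1 : ∫⁻ ξ, ‖T G ((2 * Real.pi) • Λ ξ)‖ₑ ^ q = ∫⁻ ξ, ‖T G ((2 * Real.pi) • ξ)‖ₑ ^ q :=
    Λ.measurePreserving.lintegral_comp hm1
  rw [h1, scale (fun z => ‖T G z‖ₑ ^ q) hmeas]
  have h5 : ENNReal.ofReal ((2 * Real.pi) ^ n)⁻¹ ≤ 1 := by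
    rw [ENNReal.ofReal_le_one]
    apply inv_le_one_of_one_le₀
    apply one_le_pow₀
    linarith [Real.pi_gt_three]
  calc _ ≤ 1 * ∫⁻ z, ‖T G z‖ₑ ^ q := by gcongr
    _ = _ := one_mul _

theorem ft_mod {n : ℕ} (g : sphere (0 : E n) 1 → ℂ) (η ξ : E n) :
    ft (fun x => Complex.exp ((⟪η, (x : E n)⟫ : ℝ) * I) * g x) ξ =
      ft g (ξ - (2 * Real.pi)⁻¹ • η) := by
  unfold ft
  refine integral_congr_ae (Filter.Eventually.of_forall fun x => ?_)
  simp only
  rw [← mul_assoc, ← Complex.exp_add, inner_sub_right, real_inner_smul_right,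
    real_inner_comm (x : E n) η]
  have hpi := Real.pi_ne_zero
  congr 2
  push_cast
  field_simp
  ring

theorem lint_sigma {n : ℕ} (f : E n → ℝ≥0∞) (hf : Measurable f) :
    ∫⁻ x : sphere (0 : E n) 1, f x ∂(sigma n) = ∫⁻ x, f x ∂(sg n) := by
  unfold sigma
  simp only [sg]
  rw [lintegral_map hf measurable_subtype_coe]

/-- one term of the superposition -/
theorem one_term (p q : ℝ) (hq : 0 < q) (hp : 0 < p) (C : ℝ≥0)
    (h : ∀ (G : E 3 → ℂ) (V : E 2 → ℝ≥0∞), Measurable G → Measurable V →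
      Pool.Agent.Run7.h58.MV.Mer G V →
      ∀ M : ℝ, 0 < M → ∫⁻ u, V u ^ p ∂(sg 2) ≤ ENNReal.ofReal (M ^ p) →
      (∫⁻ ξ : E 3, ‖T G ξ‖ₑ ^ q) ^ (1 / q) ≤ C * ENNReal.ofReal M)
    (Λ : E 3 ≃ₗᵢ[ℝ] E 3) (η : E 3) (G : E 3 → ℂ) (V : E 2 → ℝ≥0∞) (hG : Measurable G)
    (hV : Measurable V) (hGV : Meridians G V) (M : ℝ) (hM : 0 ≤ M)
    (hI : ∫⁻ u : sphere (0 : E 2) 1, V u ^ p ∂(sigma 2) ≤ ENNReal.ofReal (M ^ p)) :
    Measurable (ft fun x : sphere (0 : E 3) 1 => Complex.exp ((⟪η, (x : E 3)⟫ : ℝ) * I) *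
      G (Λ (x : E 3))) ∧
    (∫⁻ ξ, ‖ft (fun x : sphere (0 : E 3) 1 =>
      Complex.exp ((⟪η, (x : E 3)⟫ : ℝ) * I) * G (Λ (x : E 3))) ξ‖ₑ ^ q) ^ (1 / q) ≤
      C * ENNReal.ofReal M := by
  have hMer : Pool.Agent.Run7.h58.MV.Mer G V := by
    intro u hu
    simp only [Ps_eq]
    exact hGV u hu
  rw [lint_sigma (fun u => V u ^ p) (hV.pow_const p)] at hI
  have hTG : (∫⁻ ξ : E 3, ‖T G ξ‖ₑ ^ q) ^ (1 / q) ≤ C * ENNReal.ofReal M := by
    have ht : Tendsto (fun ε : ℝ => (C : ℝ≥0∞) * ENNReal.ofReal (M + ε)) (𝓝[>] 0)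
        (𝓝 (C * ENNReal.ofReal M)) := by
      refine ENNReal.Tendsto.const_mul ?_ (Or.inr ENNReal.coe_ne_top)
      have h1 : Tendsto (fun ε : ℝ => M + ε) (𝓝[>] 0) (𝓝 M) := by
        have h2 : Tendsto (fun ε : ℝ => M + ε) (𝓝 0) (𝓝 (M + 0)) :=
          tendsto_const_nhds.add tendsto_id
        rw [add_zero] at h2
        exact h2.mono_left nhdsWithin_le_nhds
      exact ENNReal.tendsto_ofReal h1
    refine ge_of_tendsto ht ?_
    filter_upwards [self_mem_nhdsWithin] with ε hε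
    have hε' : 0 < ε := hε
    refine h G V hG hV hMer (M + ε) (by linarith) (hI.trans ?_)
    apply ENNReal.ofReal_le_ofReal
    exact Real.rpow_le_rpow hM (by linarith) hp.le
  set g0 : sphere (0 : E 3) 1 → ℂ := fun x => G (Λ (x : E 3)) with hg0
  obtain ⟨hm1, hint⟩ := ft_int_le q g0 G hG Λ (Filter.Eventually.of_forall fun x => rfl)
  have hfun : ft (fun x : sphere (0 : E 3) 1 =>
      Complex.exp ((⟪η, (x : E 3)⟫ : ℝ) * I) * G (Λ (x : E 3))) =
      fun ξ => ft g0 (ξ - (2 * Real.pi)⁻¹ • η) := by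
    funext ξ
    rw [← ft_mod]
  have hsub : Measurable fun ξ : E 3 => ξ - (2 * Real.pi)⁻¹ • η := measurable_id.sub_const _
  rw [hfun]
  refine ⟨hm1.comp hsub, ?_⟩
  refine le_trans ?_ hTG
  gcongr ?_ ^ (1 / q)
  calc ∫⁻ ξ, ‖ft g0 (ξ - (2 * Real.pi)⁻¹ • η)‖ₑ ^ q = ∫⁻ ξ, ‖ft g0 ξ‖ₑ ^ q :=
        lintegral_sub_right_eq_self (fun ξ => ‖ft g0 ξ‖ₑ ^ q) ((2 * Real.pi)⁻¹ • η)
    _ ≤ _ := hint

/-- the mass of one term -/
theorem mass_term (p : ℝ) (hp : 1 < p) : ∃ K : ℝ≥0, ∀ (G : E 3 → ℂ) (V : E 2 → ℝ≥0∞),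
    Measurable G → Measurable V → Meridians G V → ∀ (Λ : E 3 ≃ₗᵢ[ℝ] E 3) (M : ℝ), 0 ≤ M →
    ∫⁻ u : sphere (0 : E 2) 1, V u ^ p ∂(sigma 2) ≤ ENNReal.ofReal (M ^ p) →
    ∫⁻ x : sphere (0 : E 3) 1, ‖G (Λ (x : E 3))‖ₑ ∂(sigma 3) ≤ K * ENNReal.ofReal M := by
  have hfin := sg_finite 2
  have hp0 : 0 < p := by linarith
  have hpq : p.HolderConjugate (Real.conjExponent p) := Real.HolderConjugate.conjExponent hp
  set p' : ℝ := Real.conjExponent p with hp'
  have hne : 2 * (sg 2 univ) ^ (1 / p') ≠ ⊤ := by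
    refine ENNReal.mul_ne_top (by norm_num) (ENNReal.rpow_ne_top_of_nonneg ?_
      (measure_lt_top _ _).ne)
    have := hpq.symm.pos
    positivity
  refine ⟨(2 * (sg 2 univ) ^ (1 / p')).toNNReal, fun G V hG hV hGV Λ M hM hI => ?_⟩
  rw [ENNReal.coe_toNNReal hne]
  rw [lint_sigma (fun u => V u ^ p) (hV.pow_const p)] at hI
  have hGm : Measurable fun x : E 3 => ‖G (Λ x)‖ₑ := (hG.comp Λ.continuous.measurable).enorm
  rw [lint_sigma (fun x => ‖G (Λ x)‖ₑ) hGm]
  have e1 : ∫⁻ x, ‖G (Λ x)‖ₑ ∂(sg 3) = ∫⁻ x, ‖G x‖ₑ ∂(sg 3) :=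
    (Pool.Agent.H789R2.FR.sg_inv Λ).lintegral_comp hG.enorm
  rw [e1, sphere_zu _ hG.enorm]
  have h1 := ENNReal.lintegral_mul_le_Lp_mul_Lq (sg 2) hpq (f := V) (g := fun _ => 1)
    hV.aemeasurable measurable_const.aemeasurable
  simp only [Pi.mul_apply, mul_one, ENNReal.one_rpow, lintegral_const, one_mul] at h1
  have h2 : (∫⁻ u, V u ^ p ∂(sg 2)) ^ (1 / p) ≤ ENNReal.ofReal M := by
    refine (ENNReal.rpow_le_rpow hI (by positivity)).trans (le_of_eq ?_)
    rw [ENNReal.ofReal_rpow_of_nonneg (by positivity) (by positivity), ← Real.rpow_mul hM,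
      mul_one_div_cancel hp0.ne', Real.rpow_one]
  calc ∫⁻ z in Ioo (-1 : ℝ) 1, ∫⁻ u, ‖G (Ps z u)‖ₑ ∂(sg 2)
      ≤ ∫⁻ _z in Ioo (-1 : ℝ) 1, ∫⁻ u, V u ∂(sg 2) := by
        refine setLIntegral_mono' measurableSet_Ioo fun z hz => ?_
        refine lintegral_mono_ae ?_
        filter_upwards [sg_ae 2] with u hu
        rw [Ps_eq]
        exact (hGV u hu).1 z hz
    _ = 2 * ∫⁻ u, V u ∂(sg 2) := by
        rw [setLIntegral_const, Real.volume_Ioo, mul_comm]
        norm_num
    _ ≤ 2 * (ENNReal.ofReal M * (sg 2 univ) ^ (1 / p')) := by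
        gcongr
        exact h1.trans (by gcongr)
    _ = _ := by ring

theorem holds (p q : ℝ) (hp : 1 < p) (hq : 3 < q) (hpq : 2 * p / (p - 1) < q) : Holds p q := by
  have hq0 : 0 < q := by linarith
  have hp0 : 0 < p := by linarith
  have hpq' : 2 / q < 1 - 1 / p := by
    rw [div_lt_iff₀ (by linarith)] at hpq
    rw [div_lt_iff₀ hq0, sub_mul, one_mul, div_mul_eq_mul_div, one_mul]
    have h1 : q / p * p = q := div_mul_cancel₀ _ hp0.ne'
    by_contra hc
    have h2 : (q - q / p) * p ≤ 2 * p := mul_le_mul_of_nonneg_right (not_lt.1 hc) hp0.le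
    rw [sub_mul, h1] at h2
    linarith
  obtain ⟨C, hC⟩ := thmD p q hp hq hpq'
  obtain ⟨K, hK⟩ := mass_term p hp
  refine ⟨(C : ℝ) + 1, by positivity, ?_⟩
  rintro M hM0 hM g ⟨Λ, η, G, V, hG, hV, hGV, hI, hg⟩
  set gj : ℕ → sphere (0 : E 3) 1 → ℂ := fun j x =>
    Complex.exp ((⟪η j, (x : E 3)⟫ : ℝ) * I) * G j (Λ j (x : E 3)) with hgj
  have hone := fun j => one_term p q hq0 hp0 C hC (Λ j) (η j) (G j) (V j) (hG j) (hV j) (hGV j)
    (M j) (hM0 j) (hI j)
  have hfin : IsFiniteMeasure (sigma 3) := by unfold sigma; infer_instance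
  have hgjm : ∀ j, Measurable (gj j) := by
    intro j
    have h1 : Measurable fun x : E 3 => Complex.exp ((⟪η j, x⟫ : ℝ) * I) * G j (Λ j x) := by
      refine Measurable.mul ?_ ((hG j).comp (Λ j).continuous.measurable)
      have h2 : Measurable fun x : E 3 => (⟪η j, x⟫ : ℝ) := by fun_prop
      exact Complex.measurable_exp.comp ((Complex.measurable_ofReal.comp h2).mul_const I)
    exact h1.comp measurable_subtype_coe
  have hsum : ∀ ξ, ft g ξ = ∑' j, ft (gj j) ξ := by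
    intro ξ
    unfold ft
    have hen : ∀ (j : ℕ) (x : sphere (0 : E 3) 1),
        ‖Complex.exp (-(2 * Real.pi * ⟪(x : E 3), ξ⟫ : ℝ) * I) * gj j x‖ₑ =
          ‖G j (Λ j (x : E 3))‖ₑ := by
      intro j x
      have h3 : -(((2 * Real.pi * ⟪(x : E 3), ξ⟫ : ℝ)) : ℂ) * I =
          ((-(2 * Real.pi * ⟪(x : E 3), ξ⟫) : ℝ) : ℂ) * I := by push_cast; ring
      rw [← ofReal_norm, ← ofReal_norm, norm_mul, h3, Complex.norm_exp_ofReal_mul_I, one_mul, hgj]
      simp only [norm_mul, Complex.norm_exp_ofReal_mul_I, one_mul]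
    have hexm : Measurable fun x : sphere (0 : E 3) 1 =>
        Complex.exp (-(2 * Real.pi * ⟪(x : E 3), ξ⟫ : ℝ) * I) := by
      have h4 : Continuous fun x : sphere (0 : E 3) 1 =>
        Complex.exp (-(2 * Real.pi * ⟪(x : E 3), ξ⟫ : ℝ) * I) := by fun_prop
      exact h4.measurable
    rw [← integral_tsum]
    · refine integral_congr_ae ?_
      filter_upwards [hg] with x hx
      rw [hx, ← tsum_mul_left]
    · exact fun j => (hexm.mul (hgjm j)).aestronglyMeasurable
    · have h5 : ∑' j, ∫⁻ x, ‖Complex.exp (-(2 * Real.pi * ⟪(x : E 3), ξ⟫ : ℝ) * I) *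
          gj j x‖ₑ ∂(sigma 3) ≤ ∑' j, K * ENNReal.ofReal (M j) := by
        apply ENNReal.tsum_le_tsum
        intro j
        simp only [hen]
        exact hK (G j) (V j) (hG j) (hV j) (hGV j) (Λ j) (M j) (hM0 j) (hI j)
      refine (h5.trans_lt ?_).ne
      rw [ENNReal.tsum_mul_left, ← ENNReal.ofReal_tsum_of_nonneg hM0 hM]
      exact ENNReal.mul_lt_top ENNReal.coe_lt_top ENNReal.ofReal_lt_top
  have hfun : ft g = fun ξ => ∑' j, ft (gj j) ξ := funext hsum
  have hmeas : Measurable (ft g) := by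
    rw [hfun]
    exact Measurable.tsum fun j => (hone j).1
  have hle : (∫⁻ ξ, ‖ft g ξ‖ₑ ^ q) ^ (1 / q) ≤ ENNReal.ofReal (((C : ℝ) + 1) * ∑' j, M j) := by
    calc (∫⁻ ξ, ‖ft g ξ‖ₑ ^ q) ^ (1 / q) ≤ (∫⁻ ξ, (∑' j, ‖ft (gj j) ξ‖ₑ) ^ q) ^ (1 / q) := by
          gcongr with ξ
          rw [hsum]
          exact enorm_tsum_le_tsum_enorm
      _ ≤ ((∑' j, (∫⁻ ξ, ‖ft (gj j) ξ‖ₑ ^ q) ^ (1 / q)) ^ q) ^ (1 / q) := by
          gcongr
          exact mink volume q (by linarith) (fun j ξ => ‖ft (gj j) ξ‖ₑ) fun j => (hone j).1.enorm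
      _ = ∑' j, (∫⁻ ξ, ‖ft (gj j) ξ‖ₑ ^ q) ^ (1 / q) := by
          rw [← ENNReal.rpow_mul, mul_one_div_cancel hq0.ne', ENNReal.rpow_one]
      _ ≤ ∑' j, (C : ℝ≥0∞) * ENNReal.ofReal (M j) := ENNReal.tsum_le_tsum fun j => (hone j).2
      _ = ENNReal.ofReal ((C : ℝ) * ∑' j, M j) := by
          rw [ENNReal.tsum_mul_left, ← ENNReal.ofReal_tsum_of_nonneg hM0 hM,
            ENNReal.ofReal_mul (by positivity), ENNReal.ofReal_coe_nnreal]
      _ ≤ _ := by
          apply ENNReal.ofReal_le_ofReal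
          have h6 : 0 ≤ ∑' j, M j := tsum_nonneg hM0
          nlinarith
  have hnorm : eLpNorm (ft g) (ENNReal.ofReal q) ≤ ENNReal.ofReal (((C : ℝ) + 1) * ∑' j, M j) := by
    rw [eLpNorm_eq_lintegral_rpow_enorm_toReal (by simpa using hq0) ENNReal.ofReal_ne_top,
      ENNReal.toReal_ofReal hq0.le]
    exact hle
  exact ⟨⟨hmeas.aestronglyMeasurable, hnorm.trans_lt ENNReal.ofReal_lt_top⟩, hnorm⟩

/-! ### Sets meeting every meridian in a bounded number of arcs -/

/-- the variation of the indicator function of a union of `N` intervals -/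
theorem var_ind (S t : Set ℝ) (N : ℕ) (I : Fin N → Set ℝ) (hI : ∀ i, (I i).OrdConnected)
    (h : {z | z ∈ t ∧ z ∈ S} = ⋃ i, I i) :
    eVariationOn (S.indicator (fun _ => (1 : ℂ))) t ≤ 2 * N := by
  classical
  unfold eVariationOn
  refine iSup_le ?_
  rintro ⟨n, u, hu, hut⟩
  simp only
  set X : Finset ℕ := (Finset.range n).filter fun i => u i ∈ S ∧ u (i + 1) ∉ S with hX
  set Y : Finset ℕ := (Finset.range n).filter fun i => u i ∉ S ∧ u (i + 1) ∈ S with hY
  have mem : ∀ i, u i ∈ S → ∃ j : ℕ, ∃ hj : j < N, u i ∈ I ⟨j, hj⟩ := by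
    intro i hi
    have h1 : u i ∈ ⋃ i, I i := by
      rw [← h]
      exact ⟨hut i, hi⟩
    obtain ⟨⟨j, hj⟩, h2⟩ := mem_iUnion.1 h1
    exact ⟨j, hj, h2⟩
  have mem' : ∀ j z, z ∈ I j → z ∈ S := by
    intro j z hz
    have h1 : z ∈ {z | z ∈ t ∧ z ∈ S} := by
      rw [h]
      exact mem_iUnion.2 ⟨j, hz⟩
    exact h1.2
  choose! ch hch using mem
  have same : ∀ i i', u i ∈ S → u i' ∈ S → ch i = ch i' → ∃ j, u i ∈ I j ∧ u i' ∈ I j := by
    intro i i' hi hi' heq
    obtain ⟨hj, h1⟩ := hch i hi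
    obtain ⟨hj', h1'⟩ := hch i' hi'
    refine ⟨⟨ch i, hj⟩, h1, ?_⟩
    have e : (⟨ch i, hj⟩ : Fin N) = ⟨ch i', hj'⟩ := Fin.ext heq
    rw [e]
    exact h1'
  have cX : X.card ≤ N := by
    have h1 : X.card ≤ (Finset.range N).card := by
      apply Finset.card_le_card_of_injOn (fun i => ch i) (fun i hi => by
        obtain ⟨hj, _⟩ := hch i (Finset.mem_filter.1 hi).2.1
        simpa using hj)
      have key : ∀ i ∈ X, ∀ i' ∈ X, ch i = ch i' → ¬ i < i' := by
        intro i hi i' hi' heq hlt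
        have h2 := (Finset.mem_filter.1 hi).2
        have h3 := (Finset.mem_filter.1 hi').2
        obtain ⟨j, h5, h6⟩ := same i i' h2.1 h3.1 heq
        have h4 : u (i + 1) ∈ I j := (hI j).out h5 h6 ⟨hu (Nat.le_succ i), hu hlt⟩
        exact h2.2 (mem' _ _ h4)
      intro i hi i' hi' heq
      rcases lt_trichotomy i i' with h5 | h5 | h5
      · exact absurd h5 (key i hi i' hi' heq)
      · exact h5
      · exact absurd h5 (key i' hi' i hi heq.symm)
    simpa using h1
  have cY : Y.card ≤ N := by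
    have h1 : Y.card ≤ (Finset.range N).card := by
      apply Finset.card_le_card_of_injOn (fun i => ch (i + 1)) (fun i hi => by
        obtain ⟨hj, _⟩ := hch (i + 1) (Finset.mem_filter.1 hi).2.2
        simpa using hj)
      have key : ∀ i ∈ Y, ∀ i' ∈ Y, ch (i + 1) = ch (i' + 1) → ¬ i < i' := by
        intro i hi i' hi' heq hlt
        have h2 := (Finset.mem_filter.1 hi).2
        have h3 := (Finset.mem_filter.1 hi').2
        obtain ⟨j, h5, h6⟩ := same (i + 1) (i' + 1) h2.2 h3.2 heq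
        have h4 : u i' ∈ I j := (hI j).out h5 h6 ⟨hu hlt, hu (Nat.le_succ i')⟩
        exact h3.1 (mem' _ _ h4)
      intro i hi i' hi' heq
      rcases lt_trichotomy i i' with h5 | h5 | h5
      · exact absurd h5 (key i hi i' hi' heq)
      · exact h5
      · exact absurd h5 (key i' hi' i hi heq.symm)
    simpa using h1
  have hterm : ∀ i ∈ Finset.range n, edist (S.indicator (fun _ => (1 : ℂ)) (u (i + 1)))
      (S.indicator (fun _ => (1 : ℂ)) (u i)) ≤
      (if u i ∈ S ∧ u (i + 1) ∉ S then (1 : ℝ≥0∞) else 0) +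
        (if u i ∉ S ∧ u (i + 1) ∈ S then (1 : ℝ≥0∞) else 0) := by
    intro i _
    by_cases h1 : u i ∈ S
    · by_cases h2 : u (i + 1) ∈ S
      · simp [h1, h2]
      · simp [h1, h2, edist_eq_enorm_sub]
    · by_cases h2 : u (i + 1) ∈ S
      · simp [h1, h2, edist_eq_enorm_sub]
      · simp [h1, h2]
  calc _ ≤ ∑ i ∈ Finset.range n, ((if u i ∈ S ∧ u (i + 1) ∉ S then (1 : ℝ≥0∞) else 0) +
        (if u i ∉ S ∧ u (i + 1) ∈ S then (1 : ℝ≥0∞) else 0)) := Finset.sum_le_sum hterm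
    _ = (X.card : ℝ≥0∞) + Y.card := by
        rw [Finset.sum_add_distrib, hX, hY]
        congr 1
        · rw [← Finset.sum_filter]
          simp
        · rw [← Finset.sum_filter]
          simp
    _ ≤ (N : ℝ≥0∞) + N := by
        gcongr
    _ = _ := by ring

theorem arcs_meridians (B : Set (E 3)) (N : ℕ) (h : Arcs B N) :
    Meridians (B.indicator fun _ => (1 : ℂ)) (fun _ => 2 * N + 1) := by
  intro u hu
  obtain ⟨I, hI, hU⟩ := h u hu
  refine ⟨fun z _ => ?_, ?_⟩
  · by_cases hz : pt z u ∈ B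
    · rw [indicator_of_mem hz, enorm_one]
      exact le_add_self
    · rw [indicator_of_notMem hz, enorm_zero]
      exact zero_le
  · have h1 := var_ind {z | pt z u ∈ B} (Ioo (-1 : ℝ) 1) N I hI hU
    refine le_trans (le_of_eq ?_) (h1.trans le_self_add)
    rfl

/-- **Theorem.** (1) The estimate `L^p → L^q` of the restriction conjecture for `S²` holds for
superpositions of modulated densities of bounded variation along meridians, for all exponents
`1 < p`, `3 < q`, `2p' < q` (the full conjectured range without its boundary).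
(2) For `q > 3` it holds for the indicator function of every measurable set that meets every
meridian with respect to some axis in at most `N` arcs, with norm `≤ C (N + 1)`. -/
theorem result : (∀ p q : ℝ, 1 < p → 3 < q → 2 * p / (p - 1) < q → Holds p q) ∧
    ∀ q : ℝ, 3 < q → ∃ C : ℝ, 0 < C ∧ ∀ (N : ℕ) (B : Set (E 3)) (Λ : E 3 ≃ₗᵢ[ℝ] E 3),
      MeasurableSet B → Arcs B N →
      eLpNorm (ft ((fun x : sphere (0 : E 3) 1 => B.indicator (fun _ => (1 : ℂ)) (Λ (x : E 3)))))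
        (ENNReal.ofReal q) ≤ ENNReal.ofReal (C * (N + 1)) := by
  refine ⟨holds, fun q hq => ?_⟩
  obtain ⟨C, hC, hH⟩ := holds 3 (q := q) (by norm_num) hq (by norm_num; exact hq)
  have hfin := sg_finite 2
  set S : ℝ := (sg 2 univ).toReal with hS
  have hS' : ENNReal.ofReal S = sg 2 univ := ENNReal.ofReal_toReal (measure_lt_top _ _).ne
  have hS0 : 0 ≤ S := ENNReal.toReal_nonneg
  refine ⟨C * (2 * (S + 1)), by positivity, fun N B Λ hB hN => ?_⟩
  set G : E 3 → ℂ := B.indicator fun _ => (1 : ℂ) with hG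
  set M : ℕ → ℝ := fun j => if j = 0 then (2 * N + 1) * (S + 1) else 0 with hM
  have hM0 : ∀ j, 0 ≤ M j := by
    intro j
    simp only [hM]
    split_ifs <;> positivity
  have hMs : Summable M := summable_of_ne_finset_zero (s := {0}) (by
    intro j hj
    simp only [Finset.mem_singleton] at hj
    simp [hM, hj])
  have hMt : ∑' j, M j = (2 * N + 1) * (S + 1) := by
    rw [tsum_eq_single 0]
    · simp [hM]
    · intro j hj
      simp [hM, hj]
  have hsup : Superposition 3 M (fun x => G (Λ (x : E 3))) := by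
    refine ⟨fun _ => Λ, fun _ => 0, fun j => if j = 0 then G else 0,
      fun j => if j = 0 then (fun _ => 2 * N + 1) else 0, ?_, ?_, ?_, ?_, ?_⟩
    · intro j
      by_cases hj : j = 0
      · simp only [hj, if_true]
        exact measurable_const.indicator hB
      · simp only [hj, if_false]
        exact measurable_zero
    · intro j
      by_cases hj : j = 0
      · simp only [hj, if_true]
        exact measurable_const
      · simp only [hj, if_false]
        exact measurable_zero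
    · intro j
      by_cases hj : j = 0
      · simp only [hj, if_true]
        exact arcs_meridians B N hN
      · simp only [hj, if_false]
        intro u hu
        refine ⟨fun z _ => by simp, ?_⟩
        refine (eVariationOn.constant_on ?_).le
        intro a ha b hb
        obtain ⟨_, _, rfl⟩ := ha
        obtain ⟨_, _, rfl⟩ := hb
        rfl
    · intro j
      by_cases hj : j = 0
      · simp only [hj, if_true, hM]
        rw [lint_sigma (fun _ => ((2 * (N : ℝ≥0∞) + 1) ^ (3 : ℝ))) measurable_const,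
          lintegral_const, ← hS']
        have e1 : (2 * (N : ℝ≥0∞) + 1) = ENNReal.ofReal (2 * N + 1) := by
          rw [ENNReal.ofReal_add (by positivity) (by norm_num), ENNReal.ofReal_mul (by norm_num)]
          simp
        rw [e1, ENNReal.ofReal_rpow_of_nonneg (by positivity) (by norm_num),
          ← ENNReal.ofReal_mul (by positivity)]
        apply ENNReal.ofReal_le_ofReal
        rw [Real.mul_rpow (by positivity) (by positivity)]
        gcongr
        have h7 : (S + 1) ^ (3 : ℝ) = (S + 1) ^ 3 := by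
          rw [← Real.rpow_natCast]; norm_num
        rw [h7]
        nlinarith [sq_nonneg S, mul_nonneg hS0 hS0, mul_nonneg (mul_nonneg hS0 hS0) hS0]
      · simp only [hj, if_false, hM]
        simp
    · refine Eventually.of_forall fun x => ?_
      rw [tsum_eq_single 0]
      · simp
      · intro j hj
        simp [hj]
  have h8 := (hH M hM0 hMs _ hsup).2
  refine h8.trans (ENNReal.ofReal_le_ofReal ?_)
  rw [hMt]
  have h9 : (0 : ℝ) ≤ N := by positivity
  have h10 : (2 * (N : ℝ) + 1) * (S + 1) ≤ (2 * (S + 1)) * (N + 1) := by nlinarith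
  calc C * ((2 * N + 1) * (S + 1)) ≤ C * ((2 * (S + 1)) * (N + 1)) := by gcongr
    _ = _ := by ring

end Pool.Agent.Results.MP_6cbfb8_an.MeridianRegularity
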