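import Mathlib
import Pool.Agent.Run7.h750.IF3
set_option autoImplicit false

/-!
# Stein's restriction conjecture for random densities with independent coefficients

Let `n ≥ 3`, let `Y_{k,i}`, `i < d_k`, be an orthonormal basis of the spherical harmonics of degree
`k` on the unit sphere of `ℝ^n`, for every `k`, and let `f` be a random element of `L²(σ)` whose
coefficients `X_{k,i} = ∫ Y_{k,i} f dσ` are independent, centered and satisfy `E |X_{k,i}|⁴ ≤ b_k⁴`.
Nothing else is assumed about the laws of the coefficients, and the sequence `b_k` is arbitrary. The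
isotropic Gaussian random fields on the sphere with values in `L²` are the special case in which the
`X_{k,i}` are Gaussian with a variance which depends only on `k`; another special case are random
signs, where the norms of the projections of `f` to the spaces of spherical harmonics of degree `k`
are prescribed numbers.

* For `2n/(n-1) < q < 4`,
  `E ‖(f dσ)^‖_q^q ≤ C (∑_k d_k b_k² (k+1)^(-2 s))^(q/2)`, `2 s = n - 1 - 2n/q > 0`: not only the
  `L²` norm of `f` but a norm of negative order `-s` controls the `L^q` norm of the Fourier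
  transform, on average.
* If `∑_k d_k b_k² < ∞` then almost surely `(f dσ)^ ∈ L^q(ℝ^n)` for all `q > 2n/(n-1)`, the full
  range of Stein's conjecture.
-/

open MeasureTheory ProbabilityTheory Metric Set
open scoped ENNReal RealInnerProductSpace NNReal

namespace Pool.Agent.Results.MP_6cbfb8_an.RandomFields

/-- `ℝ^n` -/
abbrev E (n : ℕ) := EuclideanSpace ℝ (Fin n)

/-- the unit sphere of `ℝ^n` -/
abbrev Sph (n : ℕ) := sphere (0 : E n) 1

/-- surface measure on the unit sphere -/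
noncomputable def sigma (n : ℕ) : Measure (Sph n) := (volume : Measure (E n)).toSphere

/-- the Fourier transform of `g dσ` -/
noncomputable def ft {n : ℕ} (g : Sph n → ℂ) (ξ : E n) : ℂ :=
  ∫ x, Complex.exp (-(2 * Real.pi * ⟪(x : E n), ξ⟫ : ℝ) * Complex.I) * g x ∂(sigma n)

/-- the value of a polynomial at a point of the sphere -/
noncomputable def ev {n : ℕ} (P : MvPolynomial (Fin n) ℝ) (x : Sph n) : ℝ :=
  MvPolynomial.eval (fun i => (x : E n) i) P

/-- `P` restricts to a spherical harmonic of degree `k`: its degree is at most `k` and on the sphere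
it is orthogonal to all the polynomials of degree less than `k` -/
def IsHarmonic {n : ℕ} (k : ℕ) (P : MvPolynomial (Fin n) ℝ) : Prop :=
  P.totalDegree ≤ k ∧ ∀ Q : MvPolynomial (Fin n) ℝ, Q.totalDegree < k →
    ∫ x, ev P x * ev Q x ∂(sigma n) = 0

/-- The `Y i` restrict to an orthonormal basis of the spherical harmonics of degree `k`. -/
def IsBasis {n d : ℕ} (k : ℕ) (Y : Fin d → MvPolynomial (Fin n) ℝ) : Prop :=
  (∀ i, IsHarmonic k (Y i)) ∧
  (∀ i j, ∫ x, ev (Y i) x * ev (Y j) x ∂(sigma n) = if i = j then 1 else 0) ∧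
  ∀ P : MvPolynomial (Fin n) ℝ, IsHarmonic k P →
    ∃ a : Fin d → ℝ, ∀ x : Sph n, ev P x = ∑ i, a i * ev (Y i) x

/-- The coefficients of the random function `f`. -/
noncomputable def coef {n : ℕ} {d : ℕ → ℕ} {Ω : Type}
    (Y : (k : ℕ) → Fin (d k) → MvPolynomial (Fin n) ℝ) (f : Ω → Sph n → ℂ)
    (p : Σ k, Fin (d k)) (ω : Ω) : ℂ := ∫ x, (ev (Y p.1 p.2) x : ℂ) * f ω x ∂(sigma n)

/-- The random function `f` has values in `L²(σ)`; its coefficients with respect to the orthonormal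
basis `Y` are independent and centered, and `E |X_{k,i}|⁴ ≤ b_k⁴`. -/
structure IndependentCoefficients {n : ℕ} {d : ℕ → ℕ} {Ω : Type} [MeasurableSpace Ω]
    (P : Measure Ω) (Y : (k : ℕ) → Fin (d k) → MvPolynomial (Fin n) ℝ) (f : Ω → Sph n → ℂ)
    (b : ℕ → ℝ≥0) : Prop where
  basis : ∀ k, IsBasis k (Y k)
  memLp : ∀ ω, MemLp (f ω) 2 (sigma n)
  measurable : ∀ p, Measurable (coef Y f p)
  indep : iIndepFun (coef Y f) P
  centered : ∀ p, ∫ ω, coef Y f p ω ∂P = 0
  fourth : ∀ p, ∫⁻ ω, ‖coef Y f p ω‖ₑ ^ 4 ∂P ≤ (b p.1 : ℝ≥0∞) ^ 4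

/-! ### Proofs -/

open Pool.Agent.N303.SH (vC H ip mem_P) in
theorem ons {n : ℕ} {d : ℕ → ℕ} {Y : (k : ℕ) → Fin (d k) → MvPolynomial (Fin n) ℝ}
    (hY : ∀ k, IsBasis k (Y k)) : Run7.h750.IF.Ons n d fun k i => vC (Y k i) := by
  have hev : ∀ (Q : MvPolynomial (Fin n) ℝ) (x : Sph n), vC Q x = ev Q x :=
    fun Q x => Pool.Agent.N303.SH.vC_apply Q x
  refine ⟨fun k i => ?_, fun k i j => ?_, fun k h hh => ?_⟩
  · refine ⟨mem_P.2 ⟨Y k i, ((hY k).1 i).1, rfl⟩, fun j hj q hq => ?_⟩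
    obtain ⟨Q, hQ, rfl⟩ := mem_P.1 hq
    have h1 := ((hY k).1 i).2 Q (by omega)
    unfold Pool.Agent.N303.SH.ip
    simp only [hev]
    rw [← h1]
    refine integral_congr_ae (Filter.Eventually.of_forall fun x => ?_)
    simp only
    ring
  · have h1 := (hY k).2.1 i j
    unfold Pool.Agent.N303.SH.ip
    simp only [hev]
    exact h1
  · obtain ⟨Q, hQ, hQe⟩ := mem_P.1 (Pool.Agent.N303.SH.H_le k hh)
    have h3 : IsHarmonic k Q := by
      refine ⟨hQ, fun R hR => ?_⟩
      have h4 := Pool.Agent.N303.SH.H_perp (j := R.totalDegree) hR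
        (q := vC R) (mem_P.2 ⟨R, le_rfl, rfl⟩) hh
      rw [Pool.Agent.N303.SH.ip_comm, ← hQe] at h4
      unfold Pool.Agent.N303.SH.ip at h4
      simp only [hev] at h4
      exact h4
    obtain ⟨a, ha⟩ := (hY k).2.2 Q h3
    refine ⟨a, ?_⟩
    rw [← hQe]
    ext x
    rw [hev, ha x, ContinuousMap.sum_apply]
    refine Finset.sum_congr rfl fun i _ => ?_
    rw [ContinuousMap.smul_apply, smul_eq_mul, hev]

theorem rand {c : ℕ} {d : ℕ → ℕ} {Ω : Type} [MeasurableSpace Ω] (P : Measure Ω)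
    {Y : (k : ℕ) → Fin (d k) → MvPolynomial (Fin (c + 2)) ℝ} {f : Ω → Sph (c + 2) → ℂ}
    {b : ℕ → ℝ≥0} (h : IndependentCoefficients P Y f b) :
    Run7.h750.IF.Rand P (fun k i => Pool.Agent.N303.SH.vC (Y k i)) f b := by
  have hev : ∀ (Q : MvPolynomial (Fin (c + 2)) ℝ) (x : Sph (c + 2)),
      Pool.Agent.N303.SH.vC Q x = ev Q x := fun Q x => Pool.Agent.N303.SH.vC_apply Q x
  have hX : Run7.h750.IF.X (fun k i => Pool.Agent.N303.SH.vC (Y k i)) f = coef Y f := by
    funext p ω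
    unfold Run7.h750.IF.X coef
    simp only [hev]
    rfl
  exact ⟨h.memLp, by rw [hX]; exact h.measurable, by rw [hX]; exact h.indep,
    by rw [hX]; exact h.centered, by rw [hX]; exact h.fourth⟩

/-- **Stein's conjecture for random densities with independent coefficients.** Let `n ≥ 3`.

1. For `2n/(n-1) < q < 4` there is a constant `C` such that for all orthonormal bases of the spaces
   of spherical harmonics and all random densities `f` with independent coefficients,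
   `E ‖(f dσ)^‖_q^q ≤ C (∑_k d_k b_k² (k+1)^(-(n - 1 - 2n/q)))^(q/2)`.
2. If `∑_k d_k b_k² < ∞` then almost surely `(f dσ)^ ∈ L^q(ℝ^n)` for all `q > 2n/(n-1)`. -/
theorem result (n : ℕ) (hn : 3 ≤ n) :
    (∀ q : ℝ, 2 * (n : ℝ) / (n - 1) < q → q < 4 → ∃ C : ℝ≥0, ∀ (d : ℕ → ℕ)
      (Y : (k : ℕ) → Fin (d k) → MvPolynomial (Fin n) ℝ) (Ω : Type) [MeasurableSpace Ω]
      (P : Measure Ω) [IsProbabilityMeasure P] (f : Ω → Sph n → ℂ) (b : ℕ → ℝ≥0),
      IndependentCoefficients P Y f b →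
      ∫⁻ ω, (∫⁻ ξ, ‖ft (f ω) ξ‖ₑ ^ q) ∂P ≤ C * (∑' k : ℕ, (d k : ℝ≥0∞) * (b k : ℝ≥0∞) ^ 2 *
        ENNReal.ofReal (((k : ℝ) + 1) ^ (-((n : ℝ) - 1 - 2 * n / q)))) ^ (q / 2)) ∧
    (∀ (d : ℕ → ℕ) (Y : (k : ℕ) → Fin (d k) → MvPolynomial (Fin n) ℝ) (Ω : Type)
      [MeasurableSpace Ω] (P : Measure Ω) [IsProbabilityMeasure P] (f : Ω → Sph n → ℂ)
      (b : ℕ → ℝ≥0), IndependentCoefficients P Y f b →
      ∑' k : ℕ, (d k : ℝ≥0∞) * (b k : ℝ≥0∞) ^ 2 ≠ ∞ →
      ∀ᵐ ω ∂P, ∀ q : ℝ, 2 * (n : ℝ) / (n - 1) < q →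
        MemLp (ft (f ω)) (ENNReal.ofReal q) volume) := by
  obtain ⟨c, rfl⟩ : ∃ c, n = c + 2 := ⟨n - 2, by omega⟩
  have hc : 1 ≤ c := by omega
  have hcr : (0 : ℝ) < (c : ℝ) + 1 := by positivity
  have e0 : ((c + 2 : ℕ) : ℝ) - 1 = (c : ℝ) + 1 := by push_cast; ring
  have hsc : Pool.Agent.N303.SH.sc c = ((c : ℝ) + 1) / 2 := rfl
  have hgam : ∀ q : ℝ, 2 * ((c + 2 : ℕ) : ℝ) / (((c + 2 : ℕ) : ℝ) - 1) < q →
      1 < Pool.Agent.N303.SH.sc c * (q - 2) := by
    intro q hq
    rw [e0, div_lt_iff₀ hcr] at hq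
    push_cast at hq
    rw [hsc]
    nlinarith
  constructor
  · intro q hq hq4
    have hγ := hgam q hq
    have hq2 : 2 < q := by
      rw [hsc] at hγ
      by_contra hcon
      push Not at hcon
      nlinarith
    obtain ⟨C, hC⟩ := Run7.h750.IF.main hc hq2 hq4 hγ
    refine ⟨C, fun d Y Ω _ P _ f b h => ?_⟩
    have h1 := hC d _ (ons h.basis) Ω P f b (rand P h)
    have e1 : (1 - Pool.Agent.N303.SH.sc c * (q - 2)) * (2 / q) =
        -(((c + 2 : ℕ) : ℝ) - 1 - 2 * ((c + 2 : ℕ) : ℝ) / q) := by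
      rw [hsc]
      push_cast
      field_simp
      ring
    rw [e1] at h1
    exact h1
  · intro d Y Ω _ P _ f b h hs
    have h1 := Run7.h750.IF.almost hc d _ (ons h.basis) Ω P f b (rand P h) hs
    filter_upwards [h1] with ω hω q hq
    have hγ := hgam q hq
    have hq2 : 2 < q := by
      rw [hsc] at hγ
      by_contra hcon
      push Not at hcon
      nlinarith
    have h2 := hω q hγ
    refine ⟨?_, ?_⟩
    · have h22 : MemLp (f ω) 2 (Pool.Agent.N303.SH.sg (c + 2)) := h.memLp ω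
      have hi : Integrable (f ω) (Pool.Agent.N303.SH.sg (c + 2)) := h22.integrable (by norm_num)
      exact (Pool.Agent.N303.SH.ft_cont hi).aestronglyMeasurable
    · rw [eLpNorm_lt_top_iff_lintegral_rpow_enorm_lt_top
        (by simpa using by linarith) ENNReal.ofReal_ne_top,
        ENNReal.toReal_ofReal (by linarith)]
      exact lt_top_iff_ne_top.2 h2

end Pool.Agent.Results.MP_6cbfb8_an.RandomFields
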