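import Mathlib
import Pool.Agent.Run7.h58.LR.IndY
set_option autoImplicit false

/-!
# Stein's restriction conjecture in all dimensions: densities with one rough variable

Write the points of the unit sphere of `ℝⁿ` (`n ≥ 3`) as `x = (cos α · ω, sin α · u)`, where `ω` is in
the unit sphere `S^{n-3}` of the first `n - 2` coordinates, `u` in the unit circle of the last two
and `0 ≤ α ≤ π / 2`. Stein's conjecture, in its full range `q > 2n/(n-1)`, holds for all bounded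
densities that are arbitrary measurable functions of the longitude `u` and of bounded variation
in `α` and in each of the `n - 3` (nested) spherical angles of `ω`, the other variables being
fixed. No relation between the values at different longitudes is assumed. The same is true for
absolutely convergent superpositions of modulated densities of this kind with respect to
arbitrary orthonormal bases.
-/

namespace Pool.Agent.Results.MP_6cbfb8_an.RoughLongitude

open MeasureTheory Set Metric Complex Filter Topology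
open Pool.Agent.Run7.h58.MV (T_smul)
open Pool.Agent.TH335.RF (mink)
open Pool.Agent.H438R2.PD (T_meas' T_comp)
open Pool.Agent.H789R2.FR (E sg T sg_finite sg_ae)
open scoped ENNReal NNReal RealInnerProductSpace

/-- surface measure on the unit sphere -/
noncomputable def sigma (n : ℕ) : Measure (sphere (0 : E n) 1) := (volume : Measure (E n)).toSphere

/-- the Fourier transform of the measure `g dσ` -/
noncomputable def ft {n : ℕ} (g : sphere (0 : E n) 1 → ℂ) (ξ : E n) : ℂ :=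
  ∫ x, Complex.exp (-(2 * Real.pi * ⟪(x : E n), ξ⟫ : ℝ) * I) * g x ∂(sigma n)

/-- For a unit vector `v` with `v_j = 0`: the half circle through `v` in which the coordinates
after the `j`-th and the direction of `(x_i)_{i<j}` are fixed (the `j`-th nested spherical angle `s`
varies):
`(cos s · v_i)_{i<j}, sin s · |(v_i)_{i<j}|, (v_i)_{i>j}`. -/
noncomputable def arc {n : ℕ} (j : Fin n) (v : E n) (s : ℝ) : E n :=
  WithLp.toLp 2 fun i => if i < j then Real.cos s * v i else if i = j then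
    Real.sin s * Real.sqrt (∑ k, if k < j then v k ^ 2 else 0) else v i

/-- `G` is bounded by `M` on the unit sphere, has variation at most `M` in each of the `n - 3` nested
spherical angles of the first `n - 2` coordinates (all other variables fixed), and variation at
most `M` along each quarter circle `cos s · a + sin s · b`, `0 < s < π / 2`, that joins a unit vector
`a` of the first `n - 2` coordinates to a unit vector `b` of the last two (the longitude). -/
def BV {n : ℕ} (M : ℝ) (G : E n → ℂ) : Prop :=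
  (∀ x : E n, ‖x‖ = 1 → ‖G x‖ ≤ M) ∧
  (∀ j : Fin n, 1 ≤ j.val → j.val + 3 ≤ n → ∀ v : E n, ‖v‖ = 1 → v j = 0 →
    eVariationOn (fun s => G (arc j v s)) (Ioo (-(Real.pi / 2)) (Real.pi / 2)) ≤
      ENNReal.ofReal M) ∧
  (∀ a b : E n, ‖a‖ = 1 → ‖b‖ = 1 → (∀ i : Fin n, n ≤ i.val + 2 → a i = 0) →
    (∀ i : Fin n, i.val + 2 < n → b i = 0) →
    eVariationOn (fun s : ℝ => G (Real.cos s • a + Real.sin s • b)) (Ioo 0 (Real.pi / 2)) ≤
      ENNReal.ofReal M)

/-- The density `g` on the unit sphere is a superposition `∑_j e^{i⟨η_j, x⟩} G_j(Λ_j x)`, where the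
`Λ_j` are linear isometries, the frequencies `η_j` are arbitrary, and the measurable function `G_j`
is of bounded variation with constant `M_j`, but for the longitude. -/
def Superposition {n : ℕ} (M : ℕ → ℝ) (g : sphere (0 : E n) 1 → ℂ) : Prop :=
  ∃ (Λ : ℕ → E n ≃ₗᵢ[ℝ] E n) (η : ℕ → E n) (G : ℕ → E n → ℂ),
    (∀ j, Measurable (G j)) ∧ (∀ j, BV (M j) (G j)) ∧
    ∀ᵐ x ∂(sigma n), g x = ∑' j, Complex.exp ((⟪η j, (x : E n)⟫ : ℝ) * I) * G j (Λ j (x : E n))

/-! ### Proofs -/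

theorem arc_def {n : ℕ} (j : Fin n) (v : E n) (s : ℝ) :
    Pool.Agent.Run7.h58.LR.arc j v s = arc j v s := rfl

theorem merZ {n : ℕ} (M : ℝ) (G : E n → ℂ) (h : BV M G) : Pool.Agent.Run7.h58.LR.MerZ M G := by
  intro a b ha hb h1 h2
  refine le_trans ?_ (h.2.2 a b ha hb h1 h2)
  have e : eVariationOn (fun z : ℝ => G (z • a + Real.sqrt (1 - z ^ 2) • b)) (Ioo 0 1) =
      eVariationOn ((fun s : ℝ => G (Real.cos s • a + Real.sin s • b)) ∘ Real.arccos)
        (Ioo 0 1) := by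
    refine eVariationOn.congr fun z hz => ?_
    simp only [Function.comp_apply]
    rw [Real.cos_arccos (by linarith [hz.1]) hz.2.le, Real.sin_arccos]
  rw [e]
  refine eVariationOn.comp_le_of_antitoneOn _ _ ?_ ?_
  · intro x hx y hy hxy
    exact Real.arccos_le_arccos hxy
  · intro z hz
    refine ⟨Real.arccos_pos.2 hz.2, ?_⟩
    exact Real.arccos_lt_pi_div_two.2 hz.1

theorem var_smul (s : Set ℝ) (f : ℝ → ℂ) (c : ℂ) :
    eVariationOn (fun x => c * f x) s ≤ ‖c‖ₑ * eVariationOn f s := by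
  unfold eVariationOn
  refine iSup_le fun p => ?_
  calc ∑ i ∈ Finset.range p.1, edist (c * f (p.2.1 (i + 1))) (c * f (p.2.1 i))
      = ‖c‖ₑ * ∑ i ∈ Finset.range p.1, edist (f (p.2.1 (i + 1))) (f (p.2.1 i)) := by
        rw [Finset.mul_sum]
        refine Finset.sum_congr rfl fun i _ => ?_
        rw [edist_eq_enorm_sub, edist_eq_enorm_sub, ← mul_sub, enorm_mul]
    _ ≤ _ := by
        gcongr
        exact le_iSup (fun p : ℕ × { u : ℕ → ℝ // Monotone u ∧ ∀ i, u i ∈ s } =>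
          ∑ i ∈ Finset.range p.1, edist (f (p.2.1 (i + 1))) (f (p.2.1 i))) p

theorem BV_scale {n : ℕ} (M : ℝ) (G : E n → ℂ) (h : BV M G) (c : ℝ) (hc : 0 < c)
    (hcM : c * M ≤ 1) : BV 1 (fun x => (c : ℂ) * G x) := by
  have hce : ‖(c : ℂ)‖ₑ * ENNReal.ofReal M ≤ ENNReal.ofReal 1 := by
    rw [← ofReal_norm, Complex.norm_real, Real.norm_of_nonneg hc.le,
      ← ENNReal.ofReal_mul hc.le]
    exact ENNReal.ofReal_le_ofReal hcM
  refine ⟨fun x hx => ?_, fun j h1 h2 v hv hj => ?_, fun a b ha hb h1 h2 => ?_⟩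
  · rw [norm_mul, Complex.norm_real, Real.norm_of_nonneg hc.le]
    exact (mul_le_mul_of_nonneg_left (h.1 x hx) hc.le).trans hcM
  · refine (var_smul _ _ _).trans (le_trans ?_ hce)
    gcongr
    exact h.2.1 j h1 h2 v hv hj
  · refine (var_smul _ _ _).trans (le_trans ?_ hce)
    gcongr
    exact h.2.2 a b ha hb h1 h2

/-- the estimate for one density -/
theorem core {n : ℕ} (hn : 3 ≤ n) (q : ℝ) (hq : 2 * (n : ℝ) / ((n : ℝ) - 1) < q) (hq0 : 0 < q) :
    ∃ C : ℝ≥0, ∀ G : E n → ℂ, Measurable G → ∀ M : ℝ, 0 ≤ M → BV M G →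
      (∫⁻ ξ, ‖T G ξ‖ₑ ^ q) ^ (1 / q) ≤ C * ENNReal.ofReal M := by
  obtain ⟨A, hA⟩ := Pool.Agent.Run7.h58.LR.mainY n hn q hq 1 zero_lt_one
  have hne : (A : ℝ≥0∞) ^ (1 / q) ≠ ⊤ :=
    ENNReal.rpow_ne_top_of_nonneg (by positivity) ENNReal.coe_ne_top
  refine ⟨((A : ℝ≥0∞) ^ (1 / q)).toNNReal, fun G hG M hM h => ?_⟩
  rw [ENNReal.coe_toNNReal hne]
  have ht : Tendsto (fun ε : ℝ => (A : ℝ≥0∞) ^ (1 / q) * ENNReal.ofReal (M + ε)) (𝓝[>] 0)
      (𝓝 ((A : ℝ≥0∞) ^ (1 / q) * ENNReal.ofReal M)) := by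
    refine ENNReal.Tendsto.const_mul ?_ (Or.inr hne)
    have h1 : Tendsto (fun ε : ℝ => M + ε) (𝓝[>] 0) (𝓝 M) := by
      have h2 : Tendsto (fun ε : ℝ => M + ε) (𝓝 0) (𝓝 (M + 0)) :=
        tendsto_const_nhds.add tendsto_id
      rw [add_zero] at h2
      exact h2.mono_left nhdsWithin_le_nhds
    exact ENNReal.tendsto_ofReal h1
  refine ge_of_tendsto ht ?_
  filter_upwards [self_mem_nhdsWithin] with ε hε
  have hε' : 0 < ε := hε
  have hMε : 0 < M + ε := by linarith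
  have hs := BV_scale M G h (M + ε)⁻¹ (inv_pos.2 hMε) (by
    rw [inv_mul_le_iff₀ hMε]
    linarith)
  have hm : Measurable fun x => (((M + ε)⁻¹ : ℝ) : ℂ) * G x := measurable_const.mul hG
  have h1 := hA _ hm hs.1 (fun j h1 h2 v hv hj => hs.2.1 j h1 h2 v hv hj) (merZ 1 _ hs)
  have e1 : ∀ ξ, T G ξ = ((M + ε : ℝ) : ℂ) * T (fun x => (((M + ε)⁻¹ : ℝ) : ℂ) * G x) ξ := by
    intro ξ
    rw [← T_smul]
    congr 1
    funext x
    rw [← mul_assoc, ← Complex.ofReal_mul, mul_inv_cancel₀ hMε.ne', ofReal_one, one_mul]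
  calc (∫⁻ ξ, ‖T G ξ‖ₑ ^ q) ^ (1 / q)
      = (∫⁻ ξ, ENNReal.ofReal (M + ε) ^ q *
          ‖T (fun x => (((M + ε)⁻¹ : ℝ) : ℂ) * G x) ξ‖ₑ ^ q) ^ (1 / q) := by
        congr 1
        refine lintegral_congr fun ξ => ?_
        rw [e1, enorm_mul, ENNReal.mul_rpow_of_nonneg _ _ hq0.le]
        congr 2
        rw [← ofReal_norm, Complex.norm_real, Real.norm_of_nonneg hMε.le]
    _ = (ENNReal.ofReal (M + ε) ^ q *
          ∫⁻ ξ, ‖T (fun x => (((M + ε)⁻¹ : ℝ) : ℂ) * G x) ξ‖ₑ ^ q) ^ (1 / q) := by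
        rw [lintegral_const_mul' _ _ (ENNReal.rpow_ne_top_of_nonneg hq0.le
          ENNReal.ofReal_ne_top)]
    _ ≤ (ENNReal.ofReal (M + ε) ^ q * A) ^ (1 / q) := by gcongr
    _ = _ := by
        rw [ENNReal.mul_rpow_of_nonneg _ _ (by positivity), ← ENNReal.rpow_mul,
          mul_one_div_cancel hq0.ne', ENNReal.rpow_one, mul_comm]

theorem ft_eq {n : ℕ} (g : sphere (0 : E n) 1 → ℂ) (G : E n → ℂ) (hG : Measurable G)
    (Λ : E n ≃ₗᵢ[ℝ] E n) (hg : ∀ᵐ x ∂(sigma n), g x = G (Λ x)) (ξ : E n) :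
    ft g ξ = T G ((2 * Real.pi) • Λ ξ) := by
  rw [← map_smul, ← T_comp]
  unfold T ft
  have m1 : Measurable fun w : E n =>
      Complex.exp (-((⟪(2 * Real.pi) • ξ, w⟫ : ℝ) : ℂ) * I) * G (Λ w) := by
    have h2 : Measurable fun z : E n => (⟪(2 * Real.pi) • ξ, z⟫ : ℝ) :=
      (by fun_prop : Continuous _).measurable
    exact (Complex.measurable_exp.comp ((Complex.measurable_ofReal.comp h2).neg.mul_const I)).mul
      (hG.comp Λ.continuous.measurable)
  simp only [sg]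
  rw [integral_map measurable_subtype_coe.aemeasurable m1.aestronglyMeasurable]
  apply integral_congr_ae
  filter_upwards [hg] with x hx
  rw [hx, real_inner_smul_left, real_inner_comm]

theorem scale {n : ℕ} (f : E n → ℝ≥0∞) (hf : Measurable f) :
    ∫⁻ ξ : E n, f ((2 * Real.pi) • ξ) =
      ENNReal.ofReal ((2 * Real.pi) ^ n)⁻¹ * ∫⁻ z, f z := by
  have h2pi : (2 * Real.pi) ≠ 0 := by positivity
  have h3 := Measure.map_addHaar_smul (volume : Measure (E n)) h2pi
  have h4 : ∫⁻ x : E n, f x ∂(Measure.map ((2 * Real.pi) • · : E n → E n) volume) =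
      ∫⁻ ξ : E n, f ((2 * Real.pi) • ξ) := lintegral_map hf (measurable_const_smul _)
  rw [← h4, h3, lintegral_smul_measure, smul_eq_mul, finrank_euclideanSpace_fin,
    abs_of_nonneg (by positivity)]

theorem TG_meas {n : ℕ} (G : E n → ℂ) (hG : Measurable G) (Λ : E n ≃ₗᵢ[ℝ] E n) :
    Measurable fun ξ : E n => T G ((2 * Real.pi) • Λ ξ) := by
  have hTm : Measurable (T G) := T_meas' G hG
  have hm1 : Measurable fun ξ : E n => T G ((2 * Real.pi) • ξ) := by
    have h1 : Measurable fun x : E n => (2 * Real.pi) • x := measurable_const_smul _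
    have h2 := Measurable.comp hTm h1
    exact h2
  have h2 := Measurable.comp hm1 Λ.continuous.measurable
  exact h2

theorem ft_int_le {n : ℕ} (q : ℝ) (g : sphere (0 : E n) 1 → ℂ) (G : E n → ℂ)
    (hG : Measurable G) (Λ : E n ≃ₗᵢ[ℝ] E n) (hg : ∀ᵐ x ∂(sigma n), g x = G (Λ x)) :
    Measurable (ft g) ∧ ∫⁻ ξ, ‖ft g ξ‖ₑ ^ q ≤ ∫⁻ z, ‖T G z‖ₑ ^ q := by
  have hfun : ft g = fun ξ => T G ((2 * Real.pi) • Λ ξ) := funext fun ξ => ft_eq g G hG Λ hg ξ
  have hTm : Measurable (T G) := T_meas' G hG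
  have hmeas : Measurable fun z => ‖T G z‖ₑ ^ q := hTm.enorm.pow_const q
  have hm1 : Measurable fun ξ : E n => ‖T G ((2 * Real.pi) • ξ)‖ₑ ^ q := by
    have h1 : Measurable fun x : E n => (2 * Real.pi) • x := measurable_const_smul _
    exact hmeas.comp h1
  refine ⟨by rw [hfun]; exact TG_meas G hG Λ, ?_⟩
  rw [hfun]
  have h1 : ∫⁻ ξ, ‖T G ((2 * Real.pi) • Λ ξ)‖ₑ ^ q = ∫⁻ ξ, ‖T G ((2 * Real.pi) • ξ)‖ₑ ^ q :=
    Λ.measurePreserving.lintegral_comp hm1
  rw [h1, scale (fun z => ‖T G z‖ₑ ^ q) hmeas]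
  have h5 : ENNReal.ofReal ((2 * Real.pi) ^ n)⁻¹ ≤ 1 := by
    rw [ENNReal.ofReal_le_one]
    apply inv_le_one_of_one_le₀
    apply one_le_pow₀
    linarith [Real.pi_gt_three]
  calc _ ≤ 1 * ∫⁻ z, ‖T G z‖ₑ ^ q := by gcongr
    _ = _ := one_mul _

theorem ft_mod {n : ℕ} (g : sphere (0 : E n) 1 → ℂ) (η ξ : E n) :
    ft (fun x => Complex.exp ((⟪η, (x : E n)⟫ : ℝ) * I) * g x) ξ =
      ft g (ξ - (2 * Real.pi)⁻¹ • η) := by
  unfold ft
  refine integral_congr_ae (Filter.Eventually.of_forall fun x => ?_)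
  simp only
  rw [← mul_assoc, ← Complex.exp_add, inner_sub_right, real_inner_smul_right,
    real_inner_comm (x : E n) η]
  have hpi := Real.pi_ne_zero
  congr 2
  push_cast
  field_simp
  ring

/-- one term of the superposition -/
theorem one_term {n : ℕ} (q : ℝ) (hq : 0 < q) (C : ℝ≥0)
    (h : ∀ G : E n → ℂ, Measurable G → ∀ M : ℝ, 0 ≤ M → BV M G →
      (∫⁻ ξ, ‖T G ξ‖ₑ ^ q) ^ (1 / q) ≤ C * ENNReal.ofReal M)
    (Λ : E n ≃ₗᵢ[ℝ] E n) (η : E n) (G : E n → ℂ) (hG : Measurable G) (M : ℝ) (hM : 0 ≤ M)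
    (hGM : BV M G) :
    Measurable (ft fun x : sphere (0 : E n) 1 => Complex.exp ((⟪η, (x : E n)⟫ : ℝ) * I) *
      G (Λ (x : E n))) ∧
    (∫⁻ ξ, ‖ft (fun x : sphere (0 : E n) 1 =>
      Complex.exp ((⟪η, (x : E n)⟫ : ℝ) * I) * G (Λ (x : E n))) ξ‖ₑ ^ q) ^ (1 / q) ≤
      C * ENNReal.ofReal M := by
  have hTG := h G hG M hM hGM
  set g0 : sphere (0 : E n) 1 → ℂ := fun x => G (Λ (x : E n)) with hg0
  obtain ⟨hm1, hint⟩ := ft_int_le q g0 G hG Λ (Filter.Eventually.of_forall fun x => rfl)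
  have hfun : ft (fun x : sphere (0 : E n) 1 =>
      Complex.exp ((⟪η, (x : E n)⟫ : ℝ) * I) * G (Λ (x : E n))) =
      fun ξ => ft g0 (ξ - (2 * Real.pi)⁻¹ • η) := by
    funext ξ
    rw [← ft_mod]
  have hsub : Measurable fun ξ : E n => ξ - (2 * Real.pi)⁻¹ • η := measurable_id.sub_const _
  rw [hfun]
  refine ⟨hm1.comp hsub, ?_⟩
  refine le_trans ?_ hTG
  gcongr ?_ ^ (1 / q)
  calc ∫⁻ ξ, ‖ft g0 (ξ - (2 * Real.pi)⁻¹ • η)‖ₑ ^ q = ∫⁻ ξ, ‖ft g0 ξ‖ₑ ^ q :=
        lintegral_sub_right_eq_self (fun ξ => ‖ft g0 ξ‖ₑ ^ q) ((2 * Real.pi)⁻¹ • η)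
    _ ≤ _ := hint

/-- **Theorem.** Let `n ≥ 3` and `q > 2n/(n-1)`. The Fourier transforms of the superpositions of
densities that are of bounded variation in all the spherical angles but the longitude, and
arbitrary measurable functions of the longitude, are in `L^q(ℝⁿ)`, with norm `≤ C ∑ M_j`. -/
theorem result (n : ℕ) (hn : 3 ≤ n) (q : ℝ) (hq : 2 * (n : ℝ) / ((n : ℝ) - 1) < q) :
    ∃ C : ℝ, 0 < C ∧ ∀ M : ℕ → ℝ, (∀ j, 0 ≤ M j) → Summable M →
      ∀ g : sphere (0 : E n) 1 → ℂ, Superposition M g →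
        MemLp (ft g) (ENNReal.ofReal q) ∧
        eLpNorm (ft g) (ENNReal.ofReal q) ≤ ENNReal.ofReal (C * ∑' j, M j) := by
  have hn3 : (3 : ℝ) ≤ n := by exact_mod_cast hn
  have hq1 : 1 < q := by
    refine lt_trans ?_ hq
    rw [lt_div_iff₀ (by linarith)]
    linarith
  have hq0 : 0 < q := by linarith
  obtain ⟨C, hC⟩ := core hn q hq hq0
  have hfin := sg_finite n
  refine ⟨(C : ℝ) + 1, by positivity, ?_⟩
  rintro M hM0 hM g ⟨Λ, η, G, hG, hGM, hg⟩
  set gj : ℕ → sphere (0 : E n) 1 → ℂ := fun j x =>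
    Complex.exp ((⟪η j, (x : E n)⟫ : ℝ) * I) * G j (Λ j (x : E n)) with hgj
  have hone := fun j => one_term q hq0 C hC (Λ j) (η j) (G j) (hG j) (M j) (hM0 j) (hGM j)
  have hfin' : IsFiniteMeasure (sigma n) := by unfold sigma; infer_instance
  have hgjm : ∀ j, Measurable (gj j) := by
    intro j
    have h1 : Measurable fun x : E n => Complex.exp ((⟪η j, x⟫ : ℝ) * I) * G j (Λ j x) := by
      refine Measurable.mul ?_ ((hG j).comp (Λ j).continuous.measurable)
      have h2 : Measurable fun x : E n => (⟪η j, x⟫ : ℝ) := by fun_prop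
      exact Complex.measurable_exp.comp ((Complex.measurable_ofReal.comp h2).mul_const I)
    exact h1.comp measurable_subtype_coe
  have hsum : ∀ ξ, ft g ξ = ∑' j, ft (gj j) ξ := by
    intro ξ
    unfold ft
    have hen : ∀ (j : ℕ) (x : sphere (0 : E n) 1),
        ‖Complex.exp (-(2 * Real.pi * ⟪(x : E n), ξ⟫ : ℝ) * I) * gj j x‖ₑ =
          ‖G j (Λ j (x : E n))‖ₑ := by
      intro j x
      have h3 : -(((2 * Real.pi * ⟪(x : E n), ξ⟫ : ℝ)) : ℂ) * I =
          ((-(2 * Real.pi * ⟪(x : E n), ξ⟫) : ℝ) : ℂ) * I := by push_cast; ring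
      rw [← ofReal_norm, ← ofReal_norm, norm_mul, h3, Complex.norm_exp_ofReal_mul_I, one_mul, hgj]
      simp only [norm_mul, Complex.norm_exp_ofReal_mul_I, one_mul]
    have hexm : Measurable fun x : sphere (0 : E n) 1 =>
        Complex.exp (-(2 * Real.pi * ⟪(x : E n), ξ⟫ : ℝ) * I) := by
      have h4 : Continuous fun x : sphere (0 : E n) 1 =>
        Complex.exp (-(2 * Real.pi * ⟪(x : E n), ξ⟫ : ℝ) * I) := by fun_prop
      exact h4.measurable
    rw [← integral_tsum]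
    · refine integral_congr_ae ?_
      filter_upwards [hg] with x hx
      rw [hx, ← tsum_mul_left]
    · exact fun j => (hexm.mul (hgjm j)).aestronglyMeasurable
    · have h5 : ∑' j, ∫⁻ x, ‖Complex.exp (-(2 * Real.pi * ⟪(x : E n), ξ⟫ : ℝ) * I) *
          gj j x‖ₑ ∂(sigma n) ≤ ∑' j, ENNReal.ofReal (M j) * (sigma n) univ := by
        apply ENNReal.tsum_le_tsum
        intro j
        simp only [hen]
        calc ∫⁻ x : sphere (0 : E n) 1, ‖G j (Λ j (x : E n))‖ₑ ∂(sigma n)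
            ≤ ∫⁻ _x : sphere (0 : E n) 1, ENNReal.ofReal (M j) ∂(sigma n) := by
              refine lintegral_mono fun x => ?_
              rw [← ofReal_norm]
              refine ENNReal.ofReal_le_ofReal ((hGM j).1 _ ?_)
              rw [LinearIsometryEquiv.norm_map]
              exact mem_sphere_zero_iff_norm.1 x.2
          _ = _ := by rw [lintegral_const]
      refine (h5.trans_lt ?_).ne
      rw [ENNReal.tsum_mul_right, ← ENNReal.ofReal_tsum_of_nonneg hM0 hM]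
      exact ENNReal.mul_lt_top ENNReal.ofReal_lt_top (measure_lt_top _ _)
  have hfun : ft g = fun ξ => ∑' j, ft (gj j) ξ := funext hsum
  have hmeas : Measurable (ft g) := by
    rw [hfun]
    exact Measurable.tsum fun j => (hone j).1
  have hle : (∫⁻ ξ, ‖ft g ξ‖ₑ ^ q) ^ (1 / q) ≤ ENNReal.ofReal (((C : ℝ) + 1) * ∑' j, M j) := by
    calc (∫⁻ ξ, ‖ft g ξ‖ₑ ^ q) ^ (1 / q) ≤ (∫⁻ ξ, (∑' j, ‖ft (gj j) ξ‖ₑ) ^ q) ^ (1 / q) := by
          gcongr with ξ
          rw [hsum]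
          exact enorm_tsum_le_tsum_enorm
      _ ≤ ((∑' j, (∫⁻ ξ, ‖ft (gj j) ξ‖ₑ ^ q) ^ (1 / q)) ^ q) ^ (1 / q) := by
          gcongr
          exact mink volume q hq1.le (fun j ξ => ‖ft (gj j) ξ‖ₑ) fun j => (hone j).1.enorm
      _ = ∑' j, (∫⁻ ξ, ‖ft (gj j) ξ‖ₑ ^ q) ^ (1 / q) := by
          rw [← ENNReal.rpow_mul, mul_one_div_cancel hq0.ne', ENNReal.rpow_one]
      _ ≤ ∑' j, (C : ℝ≥0∞) * ENNReal.ofReal (M j) := ENNReal.tsum_le_tsum fun j => (hone j).2
      _ = ENNReal.ofReal ((C : ℝ) * ∑' j, M j) := by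
          rw [ENNReal.tsum_mul_left, ← ENNReal.ofReal_tsum_of_nonneg hM0 hM,
            ENNReal.ofReal_mul (by positivity), ENNReal.ofReal_coe_nnreal]
      _ ≤ _ := by
          apply ENNReal.ofReal_le_ofReal
          have h6 : 0 ≤ ∑' j, M j := tsum_nonneg hM0
          nlinarith
  have hnorm : eLpNorm (ft g) (ENNReal.ofReal q) ≤ ENNReal.ofReal (((C : ℝ) + 1) * ∑' j, M j) := by
    rw [eLpNorm_eq_lintegral_rpow_enorm_toReal (by simpa using hq0) ENNReal.ofReal_ne_top,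
      ENNReal.toReal_ofReal hq0.le]
    exact hle
  exact ⟨⟨hmeas.aestronglyMeasurable, hnorm.trans_lt ENNReal.ofReal_lt_top⟩, hnorm⟩

end Pool.Agent.Results.MP_6cbfb8_an.RoughLongitude
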